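import Pool.Agent.H447R3.KuDefs
import Pool.Agent.H914R2.KDefs

/-!
# The Kunneth conjecture with coefficients in the coefficient field: definitions
-/

universe u v

namespace Pool.Agent.W543.KU

open Pool.Agent.H914 Pool.Agent.H447 VarClass Obj WeilCohomology

/-- The graded pieces: `N` is a graded subspace, the sum of its intersections with the `gr i`. -/
def IsGradedSub {K : Type*} [Field K] {V : Type*} [AddCommGroup V] [Module K V]
    (gr : ℕ → Submodule K V) (N : Submodule K V) : Prop := N = ⨆ i, N ⊓ gr i

variable {k : Type u} [Field k] {𝒱 : VarClass k} {ops : CycleOps 𝒱}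

/-- The Kunneth standard conjecture for `X` and the Weil cohomology theory `W` with coefficient
field `K`: for every `i` the Kunneth component of the diagonal which induces the projector onto
`H^i(X)` lies in the `K`-span of the classes of the cycles of codimension `dim X` on `X × X`. -/
def KunnethSpan (W : WeilCohomology.{u, v} ops) (X : 𝒱.Obj) : Prop :=
  ∀ i, ∃ τ ∈ spanCycles W (X.prod X) X.dim, IsProjTo (W.gr X) i (W.corr τ)

/-- The subspace `N` of `H(X)` is stable under all algebraic correspondences of degree zero, that
is, under the operators induced by the cycles of codimension `dim X` on `X × X`. -/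
def IsStableSub (W : WeilCohomology.{u, v} ops) (X : 𝒱.Obj) (N : Submodule W.K (W.H X)) : Prop :=
  ∀ z, (X.prod X).IsCyc X.dim z → ∀ x ∈ N, W.corr (W.cl (X.prod X) z) x ∈ N

end Pool.Agent.W543.KU
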