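import Pool.Agent.W543.KU.Lin
import Pool.Agent.W543.KU.Defs

/-!
# The algebra of correspondences of degree zero with coefficients
-/

open Finset

universe u v

namespace Pool.Agent.W543.KU

open Pool.Agent.H914 Pool.Agent.H447 VarClass Obj WeilCohomology

variable {k : Type u} [Field k] {𝒱 : VarClass k} {ops : CycleOps 𝒱}
  {W : WeilCohomology.{u, v} ops} {X Y : 𝒱.Obj}

lemma KOp.mul0 {f g : Module.End W.K (W.H X)} (hf : f ∈ KOp W X X 0) (hg : g ∈ KOp W X X 0) :
    f * g ∈ KOp W X X 0 := by
  have := KOp.comp hf hg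
  exact KOp.cast this (add_zero 0)

/-- The algebra of the `K`-linear combinations of correspondences of degree zero. -/
noncomputable def opS (W : WeilCohomology.{u, v} ops) (X : 𝒱.Obj) :
    Subalgebra W.K (Module.End W.K (W.H X)) where
  carrier := {f | f ∈ KOp W X X 0}
  mul_mem' := fun ha hb => KOp.mul0 ha hb
  add_mem' := fun ha hb => Submodule.add_mem (KOp W X X 0) ha hb
  algebraMap_mem' := by
    intro r
    rw [Algebra.algebraMap_eq_smul_one]
    exact Submodule.smul_mem _ _ (KOp.id X)

lemma mem_opS {f : Module.End W.K (W.H X)} : f ∈ opS W X ↔ f ∈ KOp W X X 0 := Iff.rfl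

lemma cyc_mem_opS {z : (X.prod X).Cycles} (hz : (X.prod X).IsCyc X.dim z) :
    W.corr (W.cl (X.prod X) z) ∈ opS W X := KOp.gen (p := X.dim) (by simp) hz

lemma opS_hom {f : Module.End W.K (W.H X)} (hf : f ∈ opS W X) : IsHom (W.gr X) 0 f := by
  intro i a ha
  have := KOp.isHom hf i a ha
  simpa using this

lemma opS_induction {p : Module.End W.K (W.H X) → Prop}
    (hcyc : ∀ z, (X.prod X).IsCyc X.dim z → p (W.corr (W.cl (X.prod X) z)))
    (h0 : p 0) (hadd : ∀ f g, p f → p g → p (f + g)) (hsmul : ∀ (c : W.K) f, p f → p (c • f))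
    {f : Module.End W.K (W.H X)} (hf : f ∈ opS W X) : p f := by
  rw [mem_opS] at hf
  induction hf using Submodule.span_induction with
  | mem x hx =>
    obtain ⟨q, hq, z, hz, rfl⟩ := hx
    obtain rfl : q = X.dim := by omega
    exact hcyc z hz
  | zero => exact h0
  | add x y _ _ hx hy => exact hadd _ _ hx hy
  | smul c x _ hx => exact hsmul _ _ hx

lemma kunnethSpan_iff : KunnethSpan W X ↔ ∀ i, proj (W.isInternal X) i ∈ opS W X := by
  constructor
  · intro h i
    obtain ⟨τ, hτ, hp⟩ := h i
    rw [← isProjTo_iff.1 hp, mem_opS, mem_KOp_iff]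
    exact ⟨τ, by simpa using hτ, rfl⟩
  · intro h i
    have := h i
    rw [mem_opS, mem_KOp_iff] at this
    obtain ⟨τ, hτ, hp⟩ := this
    exact ⟨τ, by simpa using hτ, isProjTo_iff.2 hp⟩

lemma isStableSub_iff {N : Submodule W.K (W.H X)} :
    IsStableSub W X N ↔ ∀ s ∈ opS W X, ∀ x ∈ N, s x ∈ N := by
  constructor
  · intro h s hs
    refine opS_induction (p := fun s => ∀ x ∈ N, s x ∈ N) h ?_ ?_ ?_ hs
    · intro x _; exact N.zero_mem
    · intro f g hf hg x hx; exact N.add_mem (hf x hx) (hg x hx)
    · intro c f hf x hx; exact N.smul_mem _ (hf x hx)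
  · intro h z hz
    exact h _ (cyc_mem_opS hz)

lemma isGradedSub_iff {K : Type*} [Field K] {V : Type*} [AddCommGroup V] [Module K V]
    {gr : ℕ → Submodule K V} (h : DirectSum.IsInternal gr) {n : ℕ}
    (hbd : ∀ i, n ≤ i → gr i = ⊥) {N : Submodule K V} :
    IsGradedSub gr N ↔ ∀ x ∈ N, ∀ i, proj h i x ∈ N := by
  constructor
  · intro hN x hx i
    rw [IsGradedSub] at hN
    rw [hN] at hx
    refine Submodule.iSup_induction (fun j => N ⊓ gr j) (motive := fun x => proj h i x ∈ N) hx
      ?_ ?_ ?_
    · intro j x hx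
      by_cases hj : j = i
      · subst hj; rw [proj_same h hx.2]; exact hx.1
      · rw [proj_ne h hx.2 hj]; exact N.zero_mem
    · rw [map_zero]; exact N.zero_mem
    · intro x y hx hy
      rw [map_add]; exact N.add_mem hx hy
  · intro hN
    apply le_antisymm
    · intro x hx
      have h1 := congrArg (fun F => F x) (sum_proj h hbd)
      simp only [LinearMap.sum_apply, Module.End.one_apply] at h1
      rw [← h1]
      apply Submodule.sum_mem
      intro i _
      exact Submodule.mem_iSup_of_mem i ⟨hN x hx i, proj_mem h i x⟩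
    · exact iSup_le fun i => inf_le_left

/-- **The Kunneth conjecture and the stable subspaces.** -/
theorem kunnethSpan_iff_graded :
    KunnethSpan W X ↔ ∀ N, IsStableSub W X N → IsGradedSub (W.gr X) N := by
  have h := W.isInternal X
  rw [kunnethSpan_iff]
  constructor
  · intro hK N hN
    rw [isStableSub_iff] at hN
    rw [isGradedSub_iff h W_hbd]
    intro x hx i
    exact hN _ (hK i) x hx
  · intro hG
    apply proj_of_comax h W_hbd (fun s hs => opS_hom hs)
    intro i j hij
    apply comax h (fun s hs => opS_hom hs) _ hij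
    intro N hN
    have := hG N (isStableSub_iff.2 hN)
    rwa [isGradedSub_iff h W_hbd] at this

end Pool.Agent.W543.KU
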