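import Pool.Agent.H447R3.KuB

/-!
# Algebras of operators of degree zero on a graded vector space
-/

open Finset

namespace Pool.Agent.W543.KU

open Pool.Agent.H914

variable {K : Type*} [Field K] {V : Type*} [AddCommGroup V] [Module K V]

/-- The left ideal of the elements killing a set. -/
def annS (S : Subalgebra K (Module.End K V)) (T : Set V) : Ideal S where
  carrier := {a | ∀ x ∈ T, (a : Module.End K V) x = 0}
  add_mem' := by
    intro a b ha hb x hx
    have h1 : ((a + b : S) : Module.End K V) x = (a : Module.End K V) x + (b : Module.End K V) x :=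
      rfl
    rw [h1, ha x hx, hb x hx, add_zero]
  zero_mem' := by
    intro x _
    rfl
  smul_mem' := by
    intro c a ha x hx
    have h1 : ((c • a : S) : Module.End K V) x = (c : Module.End K V) ((a : Module.End K V) x) :=
      rfl
    rw [h1, ha x hx, map_zero]

lemma mem_annS {S : Subalgebra K (Module.End K V)} {T : Set V} {a : S} :
    a ∈ annS S T ↔ ∀ x ∈ T, (a : Module.End K V) x = 0 := Iff.rfl

/-- A maximal left ideal containing the annihilator of `U` comes from a subquotient of `U`. -/
lemma exists_step {S : Subalgebra K (Module.End K V)} {m : Ideal S} (hm : m.IsMaximal)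
    {T : Finset V} (hT : annS S (T : Set V) ≤ m) :
    ∃ (a : Ideal S) (x : V), x ∈ T ∧ a ⊔ m = ⊤ ∧
      ∀ s ∈ a, (s : Module.End K V) x = 0 → s ∈ m := by
  classical
  induction T using Finset.induction_on with
  | empty =>
    exfalso
    apply hm.ne_top
    rw [Ideal.eq_top_iff_one]
    apply hT
    intro x hx
    simp at hx
  | insert y T hy ih =>
    by_cases h : annS S (T : Set V) ≤ m
    · obtain ⟨a, x, hx, h1, h2⟩ := ih h
      exact ⟨a, x, Finset.mem_insert_of_mem hx, h1, h2⟩
    · refine ⟨annS S (T : Set V), y, Finset.mem_insert_self _ _, ?_, ?_⟩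
      · exact hm.out.2 _ (lt_of_le_of_ne le_sup_right (fun e => h (e ▸ le_sup_left)))
      · intro s hs hsy
        apply hT
        intro x hx
        rw [Finset.coe_insert, Set.mem_insert_iff] at hx
        rcases hx with rfl | hx
        · exact hsy
        · exact hs x hx

/-- The subspaces stable under `S` are graded. -/
def StableGraded (S : Set (Module.End K V)) (gr : ℕ → Submodule K V) : Prop :=
  ∀ N : Submodule K V, (∀ s ∈ S, ∀ x ∈ N, s x ∈ N) →
    ∀ x ∈ N, ∃ y : ℕ →₀ V, (∀ i, y i ∈ gr i ∧ y i ∈ N) ∧ (y.sum fun _ v => v) = x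

variable {gr : ℕ → Submodule K V}

lemma comax [Module.Finite K V] (h : DirectSum.IsInternal gr)
    {S : Subalgebra K (Module.End K V)} (hS : ∀ s ∈ S, IsHom gr 0 s)
    (hG : ∀ N : Submodule K V, (∀ s ∈ S, ∀ x ∈ N, s x ∈ N) → ∀ x ∈ N, ∀ i, proj h i x ∈ N)
    {i j : ℕ} (hij : i ≠ j) :
    ∃ v ∈ S, (∀ x ∈ gr i, v x = x) ∧ (∀ x ∈ gr j, v x = 0) := by
  classical
  by_cases hI : annS S (gr i : Set V) ⊔ annS S (gr j : Set V) = ⊤
  · have h1 : (1 : S) ∈ annS S (gr i : Set V) ⊔ annS S (gr j : Set V) := by rw [hI]; trivial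
    obtain ⟨u, hu, v, hv, huv⟩ := Submodule.mem_sup.1 h1
    refine ⟨v, v.2, ?_, fun x hx => hv x hx⟩
    intro x hx
    have h2 : (u : Module.End K V) x + (v : Module.End K V) x = x := by
      have := congrArg (fun s : S => (s : Module.End K V) x) huv
      simpa using this
    rw [hu x hx, zero_add] at h2
    exact h2
  · exfalso
    obtain ⟨m, hm, hle⟩ := Ideal.exists_le_maximal _ hI
    have hfg : ∀ l, ∃ T : Finset V, Submodule.span K (T : Set V) = gr l := fun l =>
      (IsNoetherian.noetherian (gr l))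
    have hann : ∀ (l : ℕ) (T : Finset V), Submodule.span K (T : Set V) = gr l →
        annS S (T : Set V) ≤ annS S (gr l : Set V) := by
      intro l T hT s hs x hx
      have hx' : x ∈ Submodule.span K (T : Set V) := by rw [hT]; exact hx
      clear hx
      induction hx' using Submodule.span_induction with
      | mem x hx => exact hs x hx
      | zero => exact map_zero _
      | add x y _ _ hx hy => rw [map_add, hx, hy, add_zero]
      | smul c x _ hx => rw [map_smul, hx, smul_zero]
    obtain ⟨Ti, hTi⟩ := hfg i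
    obtain ⟨Tj, hTj⟩ := hfg j
    obtain ⟨a, x, hx, ha1, ha2⟩ := exists_step hm ((hann i Ti hTi).trans (le_sup_left.trans hle))
    obtain ⟨b, y, hy, hb1, hb2⟩ := exists_step hm ((hann j Tj hTj).trans (le_sup_right.trans hle))
    have hxi : x ∈ gr i := by rw [← hTi]; exact Submodule.subset_span hx
    have hyj : y ∈ gr j := by rw [← hTj]; exact Submodule.subset_span hy
    have hSgr : ∀ (s : S) (l : ℕ) (v : V), v ∈ gr l → (s : Module.End K V) v ∈ gr l := by
      intro s l v hv
      have := hS s s.2 l v (by rw [grZ_natCast]; exact hv)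
      rwa [add_zero, grZ_natCast] at this
    let N : Submodule K V :=
      { carrier := {v | ∃ s t : S, s ∈ a ∧ t ∈ b ∧ s - t ∈ m ∧
          v = (s : Module.End K V) x + (t : Module.End K V) y}
        add_mem' := by
          rintro _ _ ⟨s, t, hs, ht, hst, rfl⟩ ⟨s', t', hs', ht', hst', rfl⟩
          refine ⟨s + s', t + t', a.add_mem hs hs', b.add_mem ht ht', ?_, ?_⟩
          · rw [add_sub_add_comm]; exact m.add_mem hst hst'
          · simp only [Subalgebra.coe_add, LinearMap.add_apply]; abel
        zero_mem' := ⟨0, 0, a.zero_mem, b.zero_mem, by simp, by simp⟩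
        smul_mem' := by
          rintro c _ ⟨s, t, hs, ht, hst, rfl⟩
          refine ⟨c • s, c • t, Submodule.smul_of_tower_mem a c hs,
            Submodule.smul_of_tower_mem b c ht, ?_, ?_⟩
          · rw [← smul_sub]; exact Submodule.smul_of_tower_mem m c hst
          · simp only [Subalgebra.coe_smul, LinearMap.smul_apply, smul_add] }
    have hN : ∀ s ∈ S, ∀ v ∈ N, s v ∈ N := by
      rintro r hr _ ⟨s, t, hs, ht, hst, rfl⟩
      refine ⟨⟨r, hr⟩ * s, ⟨r, hr⟩ * t, a.mul_mem_left _ hs, b.mul_mem_left _ ht, ?_, ?_⟩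
      · rw [← mul_sub]; exact m.mul_mem_left _ hst
      · simp [map_add]
    have hs0 : ∃ s ∈ a, 1 - s ∈ m := by
      have h1 : (1 : S) ∈ a ⊔ m := by rw [ha1]; trivial
      obtain ⟨s, hs, t, ht, hst⟩ := Submodule.mem_sup.1 h1
      exact ⟨s, hs, by rw [← hst, add_sub_cancel_left]; exact ht⟩
    have ht0 : ∃ s ∈ b, 1 - s ∈ m := by
      have h1 : (1 : S) ∈ b ⊔ m := by rw [hb1]; trivial
      obtain ⟨s, hs, t, ht, hst⟩ := Submodule.mem_sup.1 h1
      exact ⟨s, hs, by rw [← hst, add_sub_cancel_left]; exact ht⟩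
    obtain ⟨s, hs, hs1⟩ := hs0
    obtain ⟨t, ht, ht1⟩ := ht0
    have hmem : (s : Module.End K V) x + (t : Module.End K V) y ∈ N := by
      refine ⟨s, t, hs, ht, ?_, rfl⟩
      have : s - t = (1 - t) - (1 - s) := by abel
      rw [this]; exact m.sub_mem ht1 hs1
    have h2 := hG N hN _ hmem i
    rw [map_add, proj_same h (hSgr s i x hxi), proj_ne h (hSgr t j y hyj) (Ne.symm hij),
      add_zero] at h2
    obtain ⟨s', t', hs', ht', hst', he⟩ := h2
    have h3 : (s : Module.End K V) x = (s' : Module.End K V) x := by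
      have := congrArg (proj h i) he
      rw [map_add, proj_same h (hSgr s i x hxi), proj_same h (hSgr s' i x hxi),
        proj_ne h (hSgr t' j y hyj) (Ne.symm hij), add_zero] at this
      exact this
    have h4 : (t' : Module.End K V) y = 0 := by
      rw [h3] at he
      simpa using he
    have h5 : t' ∈ m := hb2 t' ht' h4
    have h6 : s' ∈ m := by
      have : s' = (s' - t') + t' := by abel
      rw [this]; exact m.add_mem hst' h5
    have h7 : s - s' ∈ m := by
      apply ha2 _ (a.sub_mem hs hs')
      rw [Subalgebra.coe_sub, LinearMap.sub_apply, h3, sub_self]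
    apply hm.ne_top
    rw [Ideal.eq_top_iff_one]
    have : (1 : S) = (1 - s) + ((s - s') + s') := by abel
    rw [this]
    exact m.add_mem hs1 (m.add_mem h7 h6)

/-- The projectors from separating elements. -/
lemma proj_of_comax (h : DirectSum.IsInternal gr) {N : ℕ} (hbd : ∀ i, N ≤ i → gr i = ⊥)
    {S : Subalgebra K (Module.End K V)} (hS : ∀ s ∈ S, IsHom gr 0 s)
    (hc : ∀ i j, i ≠ j → ∃ v ∈ S, (∀ x ∈ gr i, v x = x) ∧ (∀ x ∈ gr j, v x = 0)) (i : ℕ) :
    proj h i ∈ S := by
  classical
  have hSgr : ∀ s ∈ S, ∀ (l : ℕ) (v : V), v ∈ gr l → s v ∈ gr l := by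
    intro s hs l v hv
    have := hS s hs l v (by rw [grZ_natCast]; exact hv)
    rwa [add_zero, grZ_natCast] at this
  have key : ∀ T : Finset ℕ, i ∉ T → ∃ v ∈ S, (∀ x ∈ gr i, v x = x) ∧
      ∀ j ∈ T, ∀ x ∈ gr j, v x = 0 := by
    intro T
    induction T using Finset.induction_on with
    | empty => exact fun _ => ⟨1, S.one_mem, fun x _ => rfl, fun j hj => by simp at hj⟩
    | insert l T hl ih =>
      intro hi
      rw [Finset.mem_insert, not_or] at hi
      obtain ⟨v, hv, h1, h2⟩ := ih hi.2
      obtain ⟨w, hw, h3, h4⟩ := hc i l hi.1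
      refine ⟨v * w, S.mul_mem hv hw, ?_, ?_⟩
      · intro x hx
        rw [Module.End.mul_apply, h3 x hx, h1 x hx]
      · intro j hj x hx
        rw [Module.End.mul_apply]
        rcases Finset.mem_insert.1 hj with rfl | hj
        · rw [h4 x hx, map_zero]
        · exact h2 j hj _ (hSgr w hw j x hx)
  obtain ⟨v, hv, h1, h2⟩ := key ((range N).erase i) (by simp)
  have : proj h i = v := by
    apply gr_ext h
    intro j x hx
    by_cases hj : j = i
    · subst hj
      rw [proj_same h hx, h1 x hx]
    · rw [proj_ne h hx hj]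
      by_cases hjN : j < N
      · rw [h2 j (by simp [hj, hjN]) x hx]
      · rw [hbd j (by omega)] at hx
        rw [(Submodule.mem_bot _).1 hx, map_zero]
  rw [this]
  exact hv

end Pool.Agent.W543.KU
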