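import Pool.Agent.W543.KU.CharDefs
import Pool.Agent.W543.KU.Lin

/-!
# Characteristic polynomials on the graded pieces
-/

open Polynomial Finset

namespace Pool.Agent.W543.KU

open Pool.Agent.H914

variable {K : Type*} [Field K] {V : Type*} [AddCommGroup V] [Module K V]
  {gr : ℕ → Submodule K V}

lemma onDeg_apply (h : DirectSum.IsInternal gr) (i : ℕ) (f : Module.End K V) (x : gr i) :
    (onDeg h i f x : V) = proj h i (f x) := rfl

lemma onDeg_add_smul (h : DirectSum.IsInternal gr) (i : ℕ) (f g : Module.End K V) (c : K) :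
    onDeg h i (f + c • g) = onDeg h i f + c • onDeg h i g := by
  ext x
  simp [onDeg_apply]

lemma onDeg_hom (h : DirectSum.IsInternal gr) (i : ℕ) {f : Module.End K V} (hf : IsHom gr 0 f)
    (x : gr i) : (onDeg h i f x : V) = f x := by
  rw [onDeg_apply]
  apply proj_same
  have := hf i x (by rw [grZ_natCast]; exact x.2)
  rwa [add_zero, grZ_natCast] at this

lemma aeval_onDeg (h : DirectSum.IsInternal gr) (i : ℕ) {f : Module.End K V} (hf : IsHom gr 0 f)
    (p : K[X]) (x : gr i) : (aeval (onDeg h i f) p x : V) = aeval f p (x : V) := by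
  have hpow : ∀ (r : ℕ) (x : gr i), ((onDeg h i f ^ r) x : V) = (f ^ r) (x : V) := by
    intro r
    induction r with
    | zero => intro x; simp
    | succ r ih =>
      intro x
      rw [pow_succ', Module.End.mul_apply, onDeg_hom h i hf, ih, pow_succ', Module.End.mul_apply]
  induction p using Polynomial.induction_on' with
  | add a b ha hb => rw [map_add, map_add, LinearMap.add_apply, LinearMap.add_apply,
      Submodule.coe_add, ha, hb]
  | monomial r c =>
    rw [aeval_monomial, aeval_monomial, Algebra.algebraMap_eq_smul_one,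
      Algebra.algebraMap_eq_smul_one, smul_mul_assoc, one_mul, smul_mul_assoc, one_mul,
      LinearMap.smul_apply, LinearMap.smul_apply, Submodule.coe_smul, hpow]

variable [Module.Finite K V]

/-- Coprime characteristic polynomials separate the graded pieces. -/
lemma sep_of_coprime (h : DirectSum.IsInternal gr) {S : Subalgebra K (Module.End K V)}
    {f : Module.End K V} (hfS : f ∈ S) (hf : IsHom gr 0 f) {i j : ℕ}
    (hc : IsCoprime (charOn h i f) (charOn h j f)) :
    ∃ v ∈ S, (∀ x ∈ gr i, v x = x) ∧ (∀ x ∈ gr j, v x = 0) := by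
  obtain ⟨a, b, hab⟩ := hc
  refine ⟨aeval f (b * charOn h j f), ?_, ?_, ?_⟩
  · exact (Algebra.adjoin_le (Set.singleton_subset_iff.2 hfS)) (aeval_mem_adjoin_singleton K f)
  · intro x hx
    have h1 : aeval f (a * charOn h i f + b * charOn h j f) x = x := by
      rw [hab, map_one, Module.End.one_apply]
    have h2 : aeval f (a * charOn h i f) x = 0 := by
      have h3 := aeval_onDeg h i hf (charOn h i f) ⟨x, hx⟩
      have h4 : aeval (onDeg h i f) (charOn h i f) = 0 := LinearMap.aeval_self_charpoly _
      rw [h4] at h3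
      rw [map_mul, Module.End.mul_apply, ← h3]
      simp
    rw [map_add, LinearMap.add_apply, h2, zero_add] at h1
    exact h1
  · intro x hx
    have h3 := aeval_onDeg h j hf (charOn h j f) ⟨x, hx⟩
    have h4 : aeval (onDeg h j f) (charOn h j f) = 0 := LinearMap.aeval_self_charpoly _
    rw [h4] at h3
    rw [map_mul, Module.End.mul_apply, ← h3]
    simp

lemma charOn_monic (h : DirectSum.IsInternal gr) (i : ℕ) (f : Module.End K V) :
    (charOn h i f).Monic := LinearMap.charpoly_monic _

lemma charOn_natDegree (h : DirectSum.IsInternal gr) (i : ℕ) (f : Module.End K V) :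
    (charOn h i f).natDegree = Module.finrank K (gr i) := LinearMap.charpoly_natDegree _

/-- The resultant of the characteristic polynomials in a pencil of operators. -/
lemma exists_pencil (h : DirectSum.IsInternal gr) (i j : ℕ) (f g : Module.End K V) :
    ∃ P : K[X], ∀ x : K, P.eval x =
      resultant (charOn h i (f + x • g)) (charOn h j (f + x • g)) := by
  classical
  have key : ∀ l : ℕ, ∃ Q : K[X][X], ∀ x : K, Q.map (evalRingHom x) = charOn h l (f + x • g) := by
    intro l
    let b := Module.finBasis K (gr l)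
    let A := LinearMap.toMatrix b b (onDeg h l f)
    let B := LinearMap.toMatrix b b (onDeg h l g)
    refine ⟨(A.map C + (X : K[X]) • B.map C).charpoly, fun x => ?_⟩
    rw [← Matrix.charpoly_map, charOn, ← LinearMap.charpoly_toMatrix _ b, onDeg_add_smul, map_add,
      map_smul]
    congr 1
    ext r s
    simp [A, B, Matrix.map_apply]
    ring
  obtain ⟨Qi, hQi⟩ := key i
  obtain ⟨Qj, hQj⟩ := key j
  refine ⟨resultant Qi Qj (Module.finrank K (gr i)) (Module.finrank K (gr j)), fun x => ?_⟩
  have h1 : (resultant Qi Qj (Module.finrank K (gr i)) (Module.finrank K (gr j))).eval x =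
      evalRingHom x (resultant Qi Qj (Module.finrank K (gr i)) (Module.finrank K (gr j))) := rfl
  rw [h1, ← resultant_map_map, hQi, hQj]
  nth_rewrite 1 [← charOn_natDegree h i (f + x • g)]
  nth_rewrite 1 [← charOn_natDegree h j (f + x • g)]
  rfl

/-- All pairs of distinct degrees have coprime characteristic polynomials. -/
def Good (h : DirectSum.IsInternal gr) (N : ℕ) (f : Module.End K V) : Prop :=
  ∀ i j, i < N → j < N → i ≠ j → IsCoprime (charOn h i f) (charOn h j f)

lemma coprime_iff (h : DirectSum.IsInternal gr) (i j : ℕ) (f : Module.End K V) :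
    IsCoprime (charOn h i f) (charOn h j f) ↔ resultant (charOn h i f) (charOn h j f) ≠ 0 := by
  rw [← isUnit_resultant_iff_isCoprime (charOn_monic h i f), isUnit_iff_ne_zero]

lemma good_pencil [CharZero K] (h : DirectSum.IsInternal gr) {N : ℕ} {f g : Module.End K V} {c : K}
    (hc : Good h N (f + c • g)) : ∃ q : ℚ, Good h N (f + (q : K) • g) := by
  classical
  choose P hP using fun p : ℕ × ℕ => exists_pencil h p.1 p.2 f g
  set s := ((range N) ×ˢ (range N)).filter (fun p => p.1 ≠ p.2) with hs
  have hne : ∏ p ∈ s, P p ≠ 0 := by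
    intro h0
    have h1 : (∏ p ∈ s, P p).eval c = 0 := by rw [h0, eval_zero]
    rw [eval_prod, Finset.prod_eq_zero_iff] at h1
    obtain ⟨p, hp, h2⟩ := h1
    rw [hP] at h2
    rw [hs, Finset.mem_filter, Finset.mem_product, Finset.mem_range, Finset.mem_range] at hp
    exact (coprime_iff h _ _ _).1 (hc p.1 p.2 hp.1.1 hp.1.2 hp.2) h2
  obtain ⟨q, hq⟩ : ∃ q : ℕ, (∏ p ∈ s, P p).eval (q : K) ≠ 0 := by
    by_contra hcon
    push Not at hcon
    apply hne
    apply Polynomial.eq_zero_of_infinite_isRoot
    refine Set.Infinite.mono (s := Set.range (fun q : ℕ => (q : K))) ?_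
      (Set.infinite_range_of_injective Nat.cast_injective)
    rintro _ ⟨q, rfl⟩
    exact hcon q
  refine ⟨q, ?_⟩
  intro i j hi hj hij
  have e : (((q : ℕ) : ℚ) : K) = (q : K) := Rat.cast_natCast q
  rw [e, coprime_iff]
  rw [eval_prod, Finset.prod_ne_zero_iff] at hq
  have hmem : (i, j) ∈ s := by
    rw [hs, Finset.mem_filter, Finset.mem_product, Finset.mem_range, Finset.mem_range]
    exact ⟨⟨hi, hj⟩, hij⟩
  have h1 := hq (i, j) hmem
  rw [hP] at h1
  exact h1

/-- From the `K`-span to rational combinations. -/
lemma good_descent [CharZero K] (h : DirectSum.IsInternal gr) {N : ℕ} {R : Set (Module.End K V)}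
    (hR0 : (0 : Module.End K V) ∈ R)
    (hRadd : ∀ f ∈ R, ∀ g ∈ R, f + g ∈ R) (hRs : ∀ (q : ℚ), ∀ f ∈ R, (q : K) • f ∈ R)
    {s : Module.End K V} (hs : s ∈ Submodule.span K R) (hg : Good h N s) : ∃ t ∈ R, Good h N t := by
  have key : ∀ s ∈ Submodule.span K R, ∀ (f : Module.End K V) (c : K), Good h N (f + c • s) →
      ∃ t ∈ R, Good h N (f + t) := by
    intro s hs
    induction hs using Submodule.span_induction with
    | mem x hx =>
      intro f c hc
      obtain ⟨q, hq⟩ := good_pencil h hc
      exact ⟨_, hRs q x hx, hq⟩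
    | zero =>
      intro f c hc
      rw [smul_zero] at hc
      exact ⟨0, hR0, hc⟩
    | add x y _ _ hx hy =>
      intro f c hc
      rw [smul_add, ← add_assoc] at hc
      obtain ⟨t, ht, h1⟩ := hy _ c hc
      have h2 : f + c • x + t = (f + t) + c • x := by abel
      rw [h2] at h1
      obtain ⟨t', ht', h3⟩ := hx _ c h1
      exact ⟨t + t', hRadd t ht t' ht', by rw [← add_assoc]; exact h3⟩
    | smul a x _ hx =>
      intro f c hc
      rw [smul_smul] at hc
      exact hx f _ hc
  obtain ⟨t, ht, h1⟩ := key s hs 0 1 (by rw [one_smul, zero_add]; exact hg)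
  rw [zero_add] at h1
  exact ⟨t, ht, h1⟩

/-- The weight operator has coprime characteristic polynomials. -/
lemma good_weight [CharZero K] (h : DirectSum.IsInternal gr) (N : ℕ) :
    Good h N (∑ i ∈ range N, (i : K) • proj h i) := by
  classical
  have key : ∀ i < N, charOn h i (∑ i ∈ range N, (i : K) • proj h i) =
      (X - C (i : K)) ^ Module.finrank K (gr i) := by
    intro i hi
    have h1 : onDeg h i (∑ i ∈ range N, (i : K) • proj h i) = (i : K) • 1 := by
      ext x
      rw [onDeg_apply, LinearMap.sum_apply, Finset.sum_eq_single i]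
      · rw [LinearMap.smul_apply, proj_same h x.2, map_smul, proj_same h x.2]; rfl
      · intro j _ hj
        rw [LinearMap.smul_apply, proj_ne h x.2 (Ne.symm hj), smul_zero]
      · intro hni; exact absurd (Finset.mem_range.2 hi) hni
    rw [charOn, h1]
    let b := Module.finBasis K (gr i)
    rw [← LinearMap.charpoly_toMatrix _ b]
    have h2 : LinearMap.toMatrix b b ((i : K) • (1 : Module.End K (gr i))) =
        Matrix.diagonal (fun _ => (i : K)) := by
      rw [map_smul, LinearMap.toMatrix_one]
      ext r s
      simp [Matrix.diagonal_apply, Matrix.one_apply]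
    rw [h2, Matrix.charpoly_diagonal]
    simp
  intro i j hi hj hij
  rw [key i hi, key j hj]
  apply IsCoprime.pow
  apply isCoprime_X_sub_C_of_isUnit_sub
  rw [isUnit_iff_ne_zero, sub_ne_zero]
  exact_mod_cast hij

end Pool.Agent.W543.KU
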