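import Pool.Agent.W543.KU.Char
import Pool.Agent.W543.KU.Base

/-!
# The Kunneth conjecture and characteristic polynomials
-/

open Polynomial Finset

universe u v

namespace Pool.Agent.W543.KU

open Pool.Agent.H914 Pool.Agent.H447 VarClass Obj WeilCohomology

variable {k : Type u} [Field k] {𝒱 : VarClass k} {ops : CycleOps 𝒱}
  {W : WeilCohomology.{u, v} ops} {X Y : 𝒱.Obj}

/-- The operators induced by cycles of codimension `dim X`. -/
def cycOps (W : WeilCohomology.{u, v} ops) (X : 𝒱.Obj) : Set (Module.End W.K (W.H X)) :=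
  {f | ∃ z, (X.prod X).IsCyc X.dim z ∧ W.corr (W.cl (X.prod X) z) = f}

lemma opS_span {f : Module.End W.K (W.H X)} (hf : f ∈ opS W X) :
    f ∈ Submodule.span W.K (cycOps W X) := by
  refine opS_induction (p := fun f => f ∈ Submodule.span W.K (cycOps W X)) ?_ ?_ ?_ ?_ hf
  · intro z hz; exact Submodule.subset_span ⟨z, hz, rfl⟩
  · exact Submodule.zero_mem _
  · intro f g hf hg; exact Submodule.add_mem _ hf hg
  · intro c f hf; exact Submodule.smul_mem _ _ hf

lemma cycOps_rop {f : Module.End W.K (W.H X)} : f ∈ cycOps W X ↔ ROp W X 0 f := by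
  constructor
  · rintro ⟨z, hz, rfl⟩
    exact rop_corr (by simp) hz
  · intro hf
    exact exists_of_rop (p := X.dim) (by simp) hf

/-- **The Kunneth conjecture and characteristic polynomials.** -/
theorem kunnethSpan_tfae (W : WeilCohomology.{u, v} ops) (X : 𝒱.Obj) :
    [KunnethSpan W X,
     ∀ i j, i ≠ j → ∃ z, (X.prod X).IsCyc X.dim z ∧
      IsCoprime (charOn (W.isInternal X) i (W.corr (W.cl (X.prod X) z)))
        (charOn (W.isInternal X) j (W.corr (W.cl (X.prod X) z))),
     ∃ z, (X.prod X).IsCyc X.dim z ∧ ∀ i j, i ≠ j →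
      IsCoprime (charOn (W.isInternal X) i (W.corr (W.cl (X.prod X) z)))
        (charOn (W.isInternal X) j (W.corr (W.cl (X.prod X) z)))].TFAE := by
  have h := W.isInternal X
  have hOA := rop_opAlg (W := W) (X := X)
  tfae_have 3 → 2 := by
    rintro ⟨z, hz, hc⟩ i j hij
    exact ⟨z, hz, hc i j hij⟩
  tfae_have 2 → 1 := by
    intro hc
    rw [kunnethSpan_iff]
    apply proj_of_comax h W_hbd (fun s hs => opS_hom hs)
    intro i j hij
    obtain ⟨z, hz, hco⟩ := hc i j hij
    exact sep_of_coprime h (cyc_mem_opS hz) (opS_hom (cyc_mem_opS hz)) hco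
  tfae_have 1 → 3 := by
    intro hK
    rw [kunnethSpan_iff] at hK
    have hs : ∑ i ∈ range (2 * X.dim + 1), (i : W.K) • proj h i ∈ opS W X :=
      Subalgebra.sum_mem _ (fun i _ => Subalgebra.smul_mem _ (hK i) _)
    obtain ⟨t, ht, hg⟩ := good_descent h (R := cycOps W X)
      (cycOps_rop.2 (hOA.zero 0))
      (fun f hf g hg => cycOps_rop.2 (hOA.add (cycOps_rop.1 hf) (cycOps_rop.1 hg)))
      (fun q f hf => cycOps_rop.2 (hOA.smul q (cycOps_rop.1 hf)))
      (opS_span hs) (good_weight h (2 * X.dim + 1))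
    obtain ⟨z, hz, rfl⟩ := ht
    refine ⟨z, hz, fun i j hij => ?_⟩
    have hone : ∀ l, 2 * X.dim + 1 ≤ l → charOn h l (W.corr (W.cl (X.prod X) z)) = 1 := by
      intro l hl
      apply Polynomial.eq_one_of_monic_natDegree_zero (charOn_monic _ _ _)
      rw [charOn_natDegree, W_hbd l hl]
      exact finrank_bot _ _
    by_cases hi : i < 2 * X.dim + 1
    · by_cases hj : j < 2 * X.dim + 1
      · exact hg i j hi hj hij
      · rw [hone j (by omega)]
        exact isCoprime_one_right
    · rw [hone i (by omega)]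
      exact isCoprime_one_left
  tfae_finish

end Pool.Agent.W543.KU
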