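import Pool.Agent.H914R2.Graded

/-!
# The operators induced on the graded pieces: definitions
-/

open Polynomial

namespace Pool.Agent.W543.KU

open Pool.Agent.H914

variable {K : Type*} [Field K] {V : Type*} [AddCommGroup V] [Module K V]
  {gr : ℕ → Submodule K V}

/-- The operator induced by `f` on the `i`-th graded piece: `f` followed by the projection. -/
noncomputable def onDeg (h : DirectSum.IsInternal gr) (i : ℕ) (f : Module.End K V) :
    Module.End K (gr i) :=
  (proj h i ∘ₗ f ∘ₗ (gr i).subtype).codRestrict (gr i) (fun _ => proj_mem h i _)

/-- The characteristic polynomial of the operator induced by `f` on the `i`-th graded piece. -/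
noncomputable def charOn [Module.Finite K V] (h : DirectSum.IsInternal gr) (i : ℕ)
    (f : Module.End K V) : K[X] := (onDeg h i f).charpoly

end Pool.Agent.W543.KU
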