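import Pool.Agent.W543.KU.PTr
import Pool.Agent.H914R2.GBasic

/-!
# The Kunneth conjecture and the middle component of `X × X × E`
-/

open Finset

universe u v

namespace Pool.Agent.W543.KU

open Pool.Agent.H914 Pool.Agent.H447 VarClass Obj WeilCohomology

variable {k : Type u} [Field k] {𝒱 : VarClass k} {ops : CycleOps 𝒱}
  {W : WeilCohomology.{u, v} ops} {X Y Z E : 𝒱.Obj}

/-- The partial trace of an algebraic Kunneth projector is algebraic. -/
lemma ptr_rop {d : ℕ} (hd : ROp W (X.prod Z) 0 (proj (W.isInternal (X.prod Z)) d))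
    {w : (Z.prod Z).Cycles} (hw : (Z.prod Z).IsCyc Z.dim w) :
    ROp W X 0 (scal (W.isInternal X) (fun i => pco W Z d i (W.cl _ w))) := by
  obtain ⟨z, hz, hz'⟩ := exists_of_rop (p := (X.prod Z).dim) (by simp) hd
  have h1 := corr_ptr_eq hz' (W.cl _ w)
  have h2 : W.cl _ (ops.push (q1 X Z) (ops.mul z (ops.pull (q2 X Z) w))) =
      W.push (q1 X Z) (W.cl _ z * W.map (q2 X Z) (W.cl _ w)) := by
    rw [W.cl_push, W.cl_mul, W.cl_pull]
  rw [← h1, ← h2]
  apply rop_corr (p := X.dim) (by simp)
  apply ops.push_mem _ (ops.mul_mem hz (ops.pull_mem _ hw))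
  simp only [dim_prod]
  omega

lemma rop_smul_iff {f : Module.End W.K (W.H X)} {q : ℚ} (hq : q ≠ 0)
    (h : ROp W X 0 ((q : W.K) • f)) : ROp W X 0 f := by
  have h1 := rop_opAlg.smul q⁻¹ h
  rw [smul_smul, ← Rat.cast_mul, inv_mul_cancel₀ hq, Rat.cast_one, one_smul] at h1
  exact h1

/-- Even shifts of an algebraic Kunneth component of a product. -/
lemma proj_of_prod {d p : ℕ} (hd : ROp W (X.prod Z) 0 (proj (W.isInternal (X.prod Z)) d))
    {α β : Z.Cycles} (hα : Z.IsCyc p α) (hβ : Z.IsCyc (Z.dim - p) β) (hp : p ≤ Z.dim)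
    (hαβ : Z.V.degCycle (ops.mul α β) ≠ 0) {i : ℕ} (hi : 2 * p + i = d) :
    ROp W X 0 (proj (W.isInternal X) i) := by
  have hw : (Z.prod Z).IsCyc Z.dim (ops.mul (ops.pull (fst Z Z) α) (ops.pull (snd Z Z) β)) := by
    have := ops.mul_mem (ops.pull_mem (fst Z Z) hα) (ops.pull_mem (snd Z Z) hβ)
    rwa [show p + (Z.dim - p) = Z.dim by omega] at this
  have h1 := ptr_rop hd hw
  apply rop_smul_iff hαβ
  have h2 : scal (W.isInternal X) (fun i => pco W Z d i (W.cl _
      (ops.mul (ops.pull (fst Z Z) α) (ops.pull (snd Z Z) β)))) =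
      ((Z.V.degCycle (ops.mul α β) : ℚ) : W.K) • proj (W.isInternal X) i := by
    apply gr_ext (W.isInternal X)
    intro j a ha
    rw [scal_apply _ _ ha, W.cl_mul, W.cl_pull, W.cl_pull,
      pco_tmul (W.cl_mem hα) (W.cl_mem hβ), LinearMap.smul_apply]
    have hcyc : Z.IsCyc Z.dim (ops.mul α β) := by
      have := ops.mul_mem hα hβ
      rwa [show p + (Z.dim - p) = Z.dim by omega] at this
    split_ifs with h
    · obtain rfl : j = i := by omega
      rw [proj_same _ ha, ← W.cl_mul, W.tr_cl hcyc]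
    · rw [proj_ne _ ha (by omega), smul_zero, zero_smul]
  rwa [h2] at h1

/-- The diagonal. -/
lemma exists_diag (Z : 𝒱.Obj) (W : WeilCohomology.{u, v} ops) :
    ∃ δ : (Z.prod Z).Cycles, (Z.prod Z).IsCyc Z.dim δ ∧ W.corr (W.cl _ δ) = 1 := by
  refine ⟨ops.push (diag Z) Z.V.fundCycle,
    ops.push_mem _ Z.V.fundCycle_mem (by simp only [dim_prod]; omega), ?_⟩
  apply LinearMap.ext
  intro a
  rw [W.cl_push, corr_diag, W.cl_fund, one_mul, Module.End.one_apply]

/-- From the component of degree `d` of `Y × E` to the component of degree `d - 1` of `Y`. -/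
lemma proj_pred {d : ℕ} (hE : E.dim = 1) (hb : Module.finrank W.K (W.gr E 1) ≠ 0)
    {DE : E.Cycles} (hDE : E.IsCyc 1 DE) (hdeg : E.V.degCycle DE ≠ 0)
    (hd : ROp W (Y.prod E) 0 (proj (W.isInternal (Y.prod E)) (d + 1))) :
    ROp W Y 0 (proj (W.isInternal Y) (d + 1)) ∧ ROp W Y 0 (proj (W.isInternal Y) d) := by
  have hOA := rop_opAlg (W := W) (X := Y)
  have h := W.isInternal Y
  have hdeg1 : E.V.degCycle (ops.mul E.V.fundCycle DE) ≠ 0 := by
    have hc : E.IsCyc E.dim (ops.mul E.V.fundCycle DE) := by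
      have := ops.mul_mem E.V.fundCycle_mem hDE
      rwa [zero_add, ← hE] at this
    have h1 := W.tr_cl hc
    rw [W.cl_mul, W.cl_fund, one_mul, W.tr_cl (by rw [hE]; exact hDE)] at h1
    have h2 : E.V.degCycle DE = E.V.degCycle (ops.mul E.V.fundCycle DE) := by exact_mod_cast h1
    rwa [← h2]
  have hdeg2 : E.V.degCycle (ops.mul DE E.V.fundCycle) ≠ 0 := by
    have hc : E.IsCyc E.dim (ops.mul DE E.V.fundCycle) := by
      have := ops.mul_mem hDE E.V.fundCycle_mem
      rwa [add_zero, ← hE] at this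
    have h1 := W.tr_cl hc
    rw [W.cl_mul, W.cl_fund, mul_one, W.tr_cl (by rw [hE]; exact hDE)] at h1
    have h2 : E.V.degCycle DE = E.V.degCycle (ops.mul DE E.V.fundCycle) := by exact_mod_cast h1
    rwa [← h2]
  have hP1 : ROp W Y 0 (proj h (d + 1)) :=
    proj_of_prod (p := 0) hd E.V.fundCycle_mem (by rw [hE]; exact hDE) (by omega) hdeg1 (by omega)
  refine ⟨hP1, ?_⟩
  have hP2 : ∀ i, i + 2 = d + 1 → ROp W Y 0 (proj h i) := fun i hi =>
    proj_of_prod (p := 1) hd hDE (by rw [hE]; exact E.V.fundCycle_mem) (by omega) hdeg2 (by omega)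
  obtain ⟨P, hP, hPa⟩ : ∃ P, ROp W Y 0 P ∧ ∀ i, ∀ a ∈ W.gr Y i, P a =
      if i + 1 = d then ((Module.finrank W.K (W.gr E 0) : ℕ) : W.K) • a else 0 := by
    by_cases h1 : 1 ≤ d
    · refine ⟨((Module.finrank W.K (W.gr E 0) : ℚ) : W.K) • proj h (d - 1),
        hOA.smul _ (hP2 _ (by omega)), fun i a ha => ?_⟩
      rw [LinearMap.smul_apply]
      split_ifs with h2
      · obtain rfl : i = d - 1 := by omega
        rw [proj_same _ ha]
        simp
      · rw [proj_ne _ ha (by omega), smul_zero]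
    · refine ⟨0, hOA.zero 0, fun i a ha => ?_⟩
      rw [if_neg (by omega)]
      rfl
  obtain ⟨δ, hδ, hδ'⟩ := exists_diag E W
  have hR := ptr_rop hd hδ
  have hsum := hOA.sub (hOA.add (hOA.smul (Module.finrank W.K (W.gr E 2) : ℚ) hP1) hP) hR
  have hb' : ((Module.finrank W.K (W.gr E 1) : ℕ) : ℚ) ≠ 0 := by exact_mod_cast hb
  apply rop_smul_iff hb'
  refine (congrArg (ROp W Y 0) ?_).mp hsum
  apply gr_ext h
  intro i a ha
  rw [LinearMap.sub_apply, LinearMap.add_apply, scal_apply _ _ ha, LinearMap.smul_apply,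
    LinearMap.smul_apply, hPa i a ha, pco, hδ', mul_one, hE, trace_proj]
  by_cases h1 : i = d + 1
  · have e1 : ¬ (i + 1 = d) := by omega
    have e2 : i ≤ d + 1 ∧ d + 1 ≤ 2 * 1 + i := by omega
    rw [if_neg e1, if_pos e2]
    subst h1
    rw [proj_same _ ha, proj_ne _ ha (by omega), smul_zero, Nat.sub_self,
      show 2 * 1 + (d + 1) - (d + 1) = 2 by omega]
    simp
  · by_cases h2 : i = d
    · have e1 : ¬ (i + 1 = d) := by omega
      have e2 : i ≤ d + 1 ∧ d + 1 ≤ 2 * 1 + i := by omega
      rw [if_neg e1, if_pos e2]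
      subst h2
      rw [proj_same _ ha, proj_ne _ ha (by omega), smul_zero,
        show i + 1 - i = 1 by omega, show 2 * 1 + i - (i + 1) = 1 by omega]
      simp
    · rw [proj_ne _ ha h1, proj_ne _ ha h2, smul_zero, smul_zero]
      by_cases h3 : i + 1 = d
      · have e2 : i ≤ d + 1 ∧ d + 1 ≤ 2 * 1 + i := by omega
        rw [if_pos h3, if_pos e2]
        subst h3
        rw [show i + 1 + 1 - i = 2 by omega, show 2 * 1 + i - (i + 1 + 1) = 0 by omega]
        simp
      · have e2 : ¬ (i ≤ d + 1 ∧ d + 1 ≤ 2 * 1 + i) := by omega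
        rw [if_neg h3, if_neg e2]
        simp

/-- All Kunneth components of `X` from the two middle components of `X × X`. -/
lemma kunneth_of_square {D : X.Cycles} (hD : X.IsCyc 1 D)
    (hdeg : X.V.degCycle (divPow ops D X.dim X.V.fundCycle) ≠ 0)
    (h0 : ROp W (X.prod X) 0 (proj (W.isInternal (X.prod X)) (2 * X.dim)))
    (h1 : ROp W (X.prod X) 0 (proj (W.isInternal (X.prod X)) (2 * X.dim + 1))) :
    KunnethStd W X := by
  apply kunneth_of_rop
  intro i
  have hcl : ∀ p, W.cl X (divPow ops D p X.V.fundCycle) = W.cl X D ^ p := by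
    intro p
    rw [cl_divPow, W.cl_fund]
    induction p with
    | zero => simp
    | succ p ih => rw [pow_succ', Module.End.mul_apply, ih, LinearMap.mulLeft_apply, pow_succ']
  have hmem : ∀ p, X.IsCyc p (divPow ops D p X.V.fundCycle) := by
    intro p
    have := divPow_mem (ops := ops) hD p X.V.fundCycle_mem
    rwa [zero_add] at this
  have hne : ∀ p ≤ X.dim, X.V.degCycle (ops.mul (divPow ops D p X.V.fundCycle)
      (divPow ops D (X.dim - p) X.V.fundCycle)) ≠ 0 := by
    intro p hp
    have hc : X.IsCyc X.dim (ops.mul (divPow ops D p X.V.fundCycle)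
        (divPow ops D (X.dim - p) X.V.fundCycle)) := by
      have := ops.mul_mem (hmem p) (hmem (X.dim - p))
      rwa [show p + (X.dim - p) = X.dim by omega] at this
    have e1 := W.tr_cl hc
    rw [W.cl_mul, hcl, hcl, ← pow_add, show p + (X.dim - p) = X.dim by omega, ← hcl,
      W.tr_cl (hmem X.dim)] at e1
    have e2 : X.V.degCycle (divPow ops D X.dim X.V.fundCycle) = X.V.degCycle
      (ops.mul (divPow ops D p X.V.fundCycle) (divPow ops D (X.dim - p) X.V.fundCycle)) := by
      exact_mod_cast e1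
    rwa [← e2]
  by_cases hi : i ≤ 2 * X.dim
  · rcases Nat.even_or_odd' i with ⟨r, hr | hr⟩
    · exact proj_of_prod (p := X.dim - r) h0 (hmem _) (hmem _) (by omega) (hne _ (by omega))
        (by omega)
    · exact proj_of_prod (p := X.dim - r) h1 (hmem _) (hmem _) (by omega) (hne _ (by omega))
        (by omega)
  · have : proj (W.isInternal X) i = 0 := by
      apply gr_ext (W.isInternal X)
      intro j a ha
      by_cases hj : j = i
      · subst hj
        rw [W_hbd j (by omega)] at ha
        rw [(Submodule.mem_bot _).1 ha, map_zero, map_zero]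
      · rw [proj_ne _ ha hj, LinearMap.zero_apply]
    rw [this]
    exact rop_opAlg.zero 0

/-- External products. -/
lemma rop_ext {φ : Module.End W.K (W.H Y)} {ψ : Module.End W.K (W.H Z)} (hφ : ROp W Y 0 φ)
    (hψ : ROp W Z 0 ψ) : ROp W (Y.prod Z) 0 (extOp W φ ψ) := by
  obtain ⟨z, hz, rfl⟩ := exists_of_rop (p := Y.dim) (by simp) hφ
  obtain ⟨w, hw, rfl⟩ := exists_of_rop (p := Z.dim) (by simp) hψ
  have hcyc := ops.mul_mem (ops.pull_mem (q1 Y Z) hz) (ops.pull_mem (q2 Y Z) hw)
  have e1 : extOp W (W.corr (W.cl _ z)) (W.corr (W.cl _ w)) =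
      W.corr (W.cl _ (ops.mul (ops.pull (q1 Y Z) z) (ops.pull (q2 Y Z) w))) := by
    apply ext_kunneth_lin
    intro a b
    rw [extOp_tmul, W.cl_mul, W.cl_pull, W.cl_pull, corr_ext _ (W.cl_mem hw)]
  rw [e1]
  exact rop_corr (p := Y.dim + Z.dim) (by rw [dim_prod]; push_cast; ring) hcyc

/-- The Kunneth components of a product. -/
lemma kunneth_prod (hY : ∀ i, ROp W Y 0 (proj (W.isInternal Y) i))
    (hZ : ∀ i, ROp W Z 0 (proj (W.isInternal Z) i)) (d : ℕ) :
    ROp W (Y.prod Z) 0 (proj (W.isInternal (Y.prod Z)) d) := by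
  have h1 : proj (W.isInternal (Y.prod Z)) d = ∑ i ∈ range (d + 1),
      extOp W (proj (W.isInternal Y) i) (proj (W.isInternal Z) (d - i)) := by
    apply LinearMap.ext
    intro c
    refine W.kunneth_induction (p := fun c => proj (W.isInternal (Y.prod Z)) d c =
      (∑ i ∈ range (d + 1), extOp W (proj (W.isInternal Y) i) (proj (W.isInternal Z) (d - i))) c)
      ?_ ?_ c
    · intro a b ha hb
      rw [map_add, map_add, ha, hb]
    intro i j a ha b hb
    have hm : W.map (fst Y Z) a * W.map (snd Y Z) b ∈ W.gr (Y.prod Z) (i + j) :=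
      W.mul_mem (W.map_mem _ ha) (W.map_mem _ hb)
    rw [LinearMap.sum_apply]
    simp only [extOp_tmul]
    by_cases hd : i + j = d
    · rw [← hd, proj_same _ hm, Finset.sum_eq_single i]
      · rw [proj_same _ ha, show i + j - i = j by omega, proj_same _ hb]
      · intro l _ hl
        rw [proj_ne _ ha (Ne.symm hl), map_zero, zero_mul]
      · intro hn; exact absurd (Finset.mem_range.2 (by omega)) hn
    · rw [proj_ne _ hm hd]
      symm
      apply Finset.sum_eq_zero
      intro l hl
      rw [Finset.mem_range] at hl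
      by_cases hli : l = i
      · subst hli
        rw [proj_ne _ hb (by omega : j ≠ d - l), map_zero, mul_zero]
      · rw [proj_ne _ ha (Ne.symm hli), map_zero, zero_mul]
  rw [h1]
  exact rop_opAlg.sum (fun i _ => rop_ext (hY i) (hZ (d - i)))

/-- The Kunneth components of a curve. -/
lemma kunneth_curve (hE : E.dim = 1) {DE : E.Cycles} (hDE : E.IsCyc 1 DE)
    (hdeg : E.V.degCycle DE ≠ 0) (i : ℕ) : ROp W E 0 (proj (W.isInternal E) i) := by
  have h := W.isInternal E
  have hOA := rop_opAlg (W := W) (X := E)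
  have htr : W.tr E (W.cl E DE) = (E.V.degCycle DE : W.K) := W.tr_cl (by rw [hE]; exact hDE)
  have hq : ((E.V.degCycle DE : ℚ) : W.K) ≠ 0 := by exact_mod_cast hdeg
  have hcD : W.cl E DE ∈ W.gr E 2 := W.cl_mem (p := 1) hDE
  have hc1 : (1 : W.H E) ∈ W.gr E 0 := W.one_mem E
  -- degree zero
  have h0 : ROp W E 0 (proj h 0) := by
    have hw : (E.prod E).IsCyc E.dim (ops.mul (ops.pull (fst E E) DE)
        (ops.pull (snd E E) E.V.fundCycle)) := by
      have := ops.mul_mem (ops.pull_mem (fst E E) hDE) (ops.pull_mem (snd E E) E.V.fundCycle_mem)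
      rwa [add_zero, ← hE] at this
    apply rop_smul_iff hdeg
    refine (congrArg (ROp W E 0) ?_).mp (rop_corr (p := E.dim) (by simp) hw)
    rw [W.cl_mul, W.cl_pull, W.cl_pull, W.cl_fund, corr_tmul_eq hcD hc1]
    apply gr_ext h
    intro j a ha
    rw [LinearMap.smulRight_apply, LinearMap.smul_apply, LinearMap.smul_apply,
      LinearMap.comp_apply, LinearMap.mulLeft_apply]
    by_cases hj : j = 0
    · subst hj
      rw [proj_same _ ha]
      rw [W.gr_zero, Submodule.mem_span_singleton] at ha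
      obtain ⟨c, rfl⟩ := ha
      rw [mul_smul_comm, mul_one, map_smul, htr]
      simp [mul_comm, smul_smul]
    · rw [proj_ne _ ha hj, W.tr_eq_zero (W.mul_mem hcD ha) (by rw [hE]; omega)]
      simp
  -- degree two
  have h2 : ROp W E 0 (proj h 2) := by
    have hw : (E.prod E).IsCyc E.dim (ops.mul (ops.pull (fst E E) E.V.fundCycle)
        (ops.pull (snd E E) DE)) := by
      have := ops.mul_mem (ops.pull_mem (fst E E) E.V.fundCycle_mem) (ops.pull_mem (snd E E) hDE)
      rwa [zero_add, ← hE] at this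
    apply rop_smul_iff hdeg
    refine (congrArg (ROp W E 0) ?_).mp (rop_corr (p := E.dim) (by simp) hw)
    rw [W.cl_mul, W.cl_pull, W.cl_pull, W.cl_fund, corr_tmul_eq hc1 hcD]
    apply gr_ext h
    intro j a ha
    rw [LinearMap.smulRight_apply, LinearMap.smul_apply, LinearMap.smul_apply,
      LinearMap.comp_apply, LinearMap.mulLeft_apply, one_mul]
    by_cases hj : j = 2
    · subst hj
      rw [proj_same _ ha]
      apply W.tr_ext
      intro b
      refine gr_induction h (p := fun b => W.tr E ((((-1 : W.K) ^ (2 * 0)) • W.tr E a) •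
        W.cl E DE * b) = W.tr E (((E.V.degCycle DE : ℚ) : W.K) • a * b)) ?_ ?_ b
      · intro l b hb
        by_cases hl : l = 0
        · subst hl
          rw [W.gr_zero, Submodule.mem_span_singleton] at hb
          obtain ⟨c, rfl⟩ := hb
          simp only [mul_zero, pow_zero, one_smul, smul_mul_assoc, mul_smul_comm, mul_one,
            map_smul, htr, smul_eq_mul]
          ring
        · rw [smul_mul_assoc, smul_mul_assoc, map_smul, map_smul,
            W.tr_eq_zero (W.mul_mem hcD hb) (by rw [hE]; omega),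
            W.tr_eq_zero (W.mul_mem ha hb) (by rw [hE]; omega), smul_zero, smul_zero]
      · intro b b' hb hb'
        rw [mul_add, mul_add, map_add, map_add, hb, hb']
    · rw [proj_ne _ ha hj, W.tr_eq_zero ha (by rw [hE]; omega)]
      simp
  by_cases hi : i ≤ 2
  · interval_cases i
    · exact h0
    · have h3 := sum_proj h (N := 3) (fun i hi => W_hbd i (by rw [hE]; omega))
      rw [Finset.sum_range_succ, Finset.sum_range_succ, Finset.sum_range_succ,
        Finset.sum_range_zero, zero_add] at h3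
      have h4 : proj h 1 = 1 - proj h 0 - proj h 2 := by rw [← h3]; abel
      rw [h4]
      exact hOA.sub (hOA.sub hOA.one h0) h2
    · exact h2
  · have : proj h i = 0 := by
      apply gr_ext h
      intro j a ha
      by_cases hj : j = i
      · subst hj
        rw [W_hbd j (by rw [hE]; omega)] at ha
        rw [(Submodule.mem_bot _).1 ha, map_zero, map_zero]
      · rw [proj_ne _ ha hj, LinearMap.zero_apply]
    rw [this]
    exact hOA.zero 0

lemma kunnethAt_iff {i : ℕ} : KunnethAt W X i ↔ ROp W X 0 (proj (W.isInternal X) i) := by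
  constructor
  · rintro ⟨P, hP, hP'⟩
    have : W.corr (W.cl _ P) = proj (W.isInternal X) i := by
      apply gr_ext (W.isInternal X)
      intro j a ha
      rw [hP' j a ha]
      split_ifs with h
      · subst h; rw [proj_same _ ha]
      · rw [proj_ne _ ha h]
    rw [← this]
    exact rop_corr (by simp) hP
  · intro h
    obtain ⟨z, hz, hz'⟩ := exists_of_rop (p := X.dim) (by simp) h
    refine ⟨z, hz, fun j a ha => ?_⟩
    rw [hz']
    split_ifs with hj
    · subst hj; rw [proj_same _ ha]
    · rw [proj_ne _ ha hj]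

/-- **The Kunneth conjecture and the middle component of `X × X × E`.** -/
theorem kunneth_iff_middle {D : X.Cycles} (hD : X.IsCyc 1 D)
    (hdeg : X.V.degCycle (divPow ops D X.dim X.V.fundCycle) ≠ 0) (hE : E.dim = 1)
    (hb : Module.finrank W.K (W.gr E 1) ≠ 0) {DE : E.Cycles} (hDE : E.IsCyc 1 DE)
    (hdegE : E.V.degCycle DE ≠ 0) :
    KunnethStd W X ↔ KunnethAt W ((X.prod X).prod E) ((X.prod X).prod E).dim := by
  have hdim : ((X.prod X).prod E).dim = 2 * X.dim + 1 := by
    rw [dim_prod, dim_prod, hE]; ring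
  rw [hdim, kunnethAt_iff]
  constructor
  · intro hK
    have h1 := kunneth_rop hK
    exact kunneth_prod (kunneth_prod h1 h1) (kunneth_curve hE hDE hdegE) _
  · intro h
    obtain ⟨h1, h2⟩ := proj_pred hE hb hDE hdegE h
    exact kunneth_of_square hD hdeg h2 h1

end Pool.Agent.W543.KU
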