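import Pool.Agent.H914R2.ExtOp
import Pool.Agent.H447R3.KuB

/-!
# Partial traces of the Kunneth projectors of a product
-/

open Finset

universe u v

namespace Pool.Agent.W543.KU

open Pool.Agent.H914 Pool.Agent.H447 VarClass Obj WeilCohomology

variable {k : Type u} [Field k] {𝒱 : VarClass k} {ops : CycleOps 𝒱}
  {W : WeilCohomology.{u, v} ops} {X Z : 𝒱.Obj}

lemma tr_corr {Y : 𝒱.Obj} (c : W.H (X.prod Y)) (a : W.H X) (b : W.H Y) :
    W.tr Y (W.corr c a * b) =
      W.tr (X.prod Y) (c * (W.map (fst X Y) a * W.map (snd X Y) b)) := by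
  rw [corr_apply, W.tr_push, mul_assoc]

/-- The operator of a decomposable class. -/
lemma corr_tmul_eq {s s' : ℕ} {α β : W.H Z} (hα : α ∈ W.gr Z s) (hβ : β ∈ W.gr Z s') :
    W.corr (W.map (fst Z Z) α * W.map (snd Z Z) β) =
      (((-1 : W.K) ^ (s' * s)) • (W.tr Z ∘ₗ LinearMap.mulLeft W.K α)).smulRight β := by
  apply gr_ext (W.isInternal Z)
  intro e x hx
  rw [corr_apply, mul_assoc, W.comm (W.map_mem (snd Z Z) hβ) (W.map_mem (fst Z Z) hx),
    mul_smul_comm, ← mul_assoc, ← map_mul, map_smul, push_snd, LinearMap.smulRight_apply]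
  simp only [LinearMap.smul_apply, LinearMap.comp_apply, LinearMap.mulLeft_apply, smul_eq_mul]
  by_cases hl : s + e = 2 * Z.dim
  · have hpar : (-1 : W.K) ^ (s' * e) = (-1 : W.K) ^ (s' * s) := by
      have h1 : s' * e + s' * s = 2 * (s' * Z.dim) := by
        rw [← mul_add, add_comm e s, hl]; ring
      have h2 : (-1 : W.K) ^ (s' * e) * (-1 : W.K) ^ (s' * s) = 1 := by
        rw [← pow_add, h1, pow_mul]; simp
      have h3 : (-1 : W.K) ^ (s' * s) * (-1 : W.K) ^ (s' * s) = 1 := by
        rw [← pow_add, ← two_mul, pow_mul]; simp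
      calc (-1 : W.K) ^ (s' * e) = (-1 : W.K) ^ (s' * e) *
            ((-1 : W.K) ^ (s' * s) * (-1 : W.K) ^ (s' * s)) := by rw [h3, mul_one]
        _ = _ := by rw [← mul_assoc, h2, one_mul]
    rw [hpar, smul_smul]
  · rw [W.tr_eq_zero (W.mul_mem hα hx) hl]
    simp

/-- The trace of a decomposable class on a cohomology group. -/
lemma trace_tmul {s s' l : ℕ} {α β : W.H Z} (hα : α ∈ W.gr Z s) (hβ : β ∈ W.gr Z s') :
    LinearMap.trace W.K (W.H Z) (proj (W.isInternal Z) l *
      W.corr (W.map (fst Z Z) α * W.map (snd Z Z) β)) =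
        if s' = l then (-1 : W.K) ^ s * W.tr Z (α * β) else 0 := by
  rw [corr_tmul_eq hα hβ]
  have h1 : proj (W.isInternal Z) l *
      (((-1 : W.K) ^ (s' * s)) • (W.tr Z ∘ₗ LinearMap.mulLeft W.K α)).smulRight β =
      (((-1 : W.K) ^ (s' * s)) • (W.tr Z ∘ₗ LinearMap.mulLeft W.K α)).smulRight
        (proj (W.isInternal Z) l β) := by
    apply LinearMap.ext
    intro x
    rw [Module.End.mul_apply, LinearMap.smulRight_apply, LinearMap.smulRight_apply, map_smul]
  rw [h1]
  have htr := LinearMap.trace_smulRight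
    (((-1 : W.K) ^ (s' * s)) • (W.tr Z ∘ₗ LinearMap.mulLeft W.K α)) (proj (W.isInternal Z) l β)
  rw [htr]
  simp only [LinearMap.smul_apply, LinearMap.comp_apply, LinearMap.mulLeft_apply, smul_eq_mul]
  split_ifs with hl
  · subst hl
    rw [proj_same _ hβ]
    by_cases hs : s + s' = 2 * Z.dim
    · congr 1
      have h2 : Even (s' * s + s) := by
        have h3 : s' * s + s = s * (s' + 1) := by ring
        rw [h3]
        rcases Nat.even_or_odd s with h | h
        · exact h.mul_right _
        · apply Even.mul_left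
          have : Odd s' := by
            by_contra h'
            rw [Nat.not_odd_iff_even] at h'
            have := h.add_even h'
            rw [hs] at this
            exact (Nat.not_even_iff_odd.2 this) (even_two_mul _)
          exact this.add_one
      have h4 : (-1 : W.K) ^ (s' * s) * (-1 : W.K) ^ s = 1 := by
        rw [← pow_add, h2.neg_one_pow]
      have h5 : (-1 : W.K) ^ s * (-1 : W.K) ^ s = 1 := by
        rw [← pow_add, ← two_mul, pow_mul]; simp
      calc (-1 : W.K) ^ (s' * s) = (-1 : W.K) ^ (s' * s) * ((-1 : W.K) ^ s * (-1 : W.K) ^ s) := by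
            rw [h5, mul_one]
        _ = _ := by rw [← mul_assoc, h4, one_mul]
    · rw [W.tr_eq_zero (W.mul_mem hα hβ) hs, mul_zero, mul_zero]
  · rw [proj_ne _ hβ hl, mul_zero, map_zero, mul_zero]

/-- The coefficient of the partial trace on `H^i(X)`. -/
noncomputable def pco (W : WeilCohomology.{u, v} ops) (Z : 𝒱.Obj) (d i : ℕ)
    (t : W.H (Z.prod Z)) : W.K :=
  if i ≤ d ∧ d ≤ 2 * Z.dim + i then (-1 : W.K) ^ (d - i) * LinearMap.trace W.K (W.H Z)
    (proj (W.isInternal Z) (2 * Z.dim + i - d) * W.corr t) else 0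

lemma pco_add (d i : ℕ) (t t' : W.H (Z.prod Z)) :
    pco W Z d i (t + t') = pco W Z d i t + pco W Z d i t' := by
  rw [pco, pco, pco, corr_add]
  split_ifs
  · rw [mul_add, map_add, mul_add]
  · rw [add_zero]

lemma pco_tmul {d i s s' : ℕ} {α β : W.H Z} (hα : α ∈ W.gr Z s) (hβ : β ∈ W.gr Z s') :
    pco W Z d i (W.map (fst Z Z) α * W.map (snd Z Z) β) =
      if s + i = d then W.tr Z (α * β) else 0 := by
  rw [pco, trace_tmul hα hβ]
  by_cases hs : s + s' = 2 * Z.dim
  · split_ifs with h1 h2 h3 h4 h5 h6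
    · obtain rfl : s = d - i := by omega
      rw [← mul_assoc, ← pow_add, ← two_mul, pow_mul]
      simp
    · exfalso; omega
    · exfalso; omega
    · rw [mul_zero]
    · exfalso; omega
    · rfl
  · rw [W.tr_eq_zero (W.mul_mem hα hβ) hs]
    simp

/-- **The partial trace of a Kunneth projector.** -/
theorem corr_ptr {d : ℕ} {c : W.H ((X.prod Z).prod (X.prod Z))}
    (hc : W.corr c = proj (W.isInternal (X.prod Z)) d) (t : W.H (Z.prod Z)) :
    ∀ i, ∀ a ∈ W.gr X i,
      W.corr (W.push (q1 X Z) (c * W.map (q2 X Z) t)) a = pco W Z d i t • a := by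
  intro i a ha
  apply W.tr_ext
  intro b
  refine gr_induction (W.isInternal X) (p := fun b =>
    W.tr X (W.corr (W.push (q1 X Z) (c * W.map (q2 X Z) t)) a * b) =
      W.tr X (pco W Z d i t • a * b)) ?_ ?_ b
  swap
  · intro b b' hb hb'
    rw [mul_add, mul_add, map_add, map_add, hb, hb']
  intro j b hb
  rw [tr_corr, W.tr_push, q1_tmul]
  refine W.kunneth_induction (p := fun t =>
    W.tr ((X.prod Z).prod (X.prod Z)) (c * W.map (q2 X Z) t *
      (W.map (fst _ _) (W.map (fst X Z) a) * W.map (snd _ _) (W.map (fst X Z) b))) =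
      W.tr X (pco W Z d i t • a * b)) ?_ ?_ t
  · intro t t' ht ht'
    rw [map_add, mul_add, add_mul, map_add, ht, ht', pco_add, add_smul, add_mul, map_add]
  intro s s' α hα β hβ
  rw [pco_tmul hα hβ, q2_tmul]
  have e1 : c * (W.map (fst (X.prod Z) (X.prod Z)) (W.map (snd X Z) α) *
      W.map (snd (X.prod Z) (X.prod Z)) (W.map (snd X Z) β)) *
      (W.map (fst _ _) (W.map (fst X Z) a) * W.map (snd _ _) (W.map (fst X Z) b)) =
      (-1 : W.K) ^ (s' * i) • (c * (W.map (fst (X.prod Z) (X.prod Z))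
        (W.map (snd X Z) α * W.map (fst X Z) a) * W.map (snd (X.prod Z) (X.prod Z))
        (W.map (snd X Z) β * W.map (fst X Z) b))) := by
    have hsw : W.map (snd (X.prod Z) (X.prod Z)) (W.map (snd X Z) β) *
        W.map (fst (X.prod Z) (X.prod Z)) (W.map (fst X Z) a) =
        (-1 : W.K) ^ (s' * i) • (W.map (fst (X.prod Z) (X.prod Z)) (W.map (fst X Z) a) *
          W.map (snd (X.prod Z) (X.prod Z)) (W.map (snd X Z) β)) :=
      W.comm (W.map_mem _ (W.map_mem _ hβ)) (W.map_mem _ (W.map_mem _ ha))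
    rw [map_mul (W.map (fst (X.prod Z) (X.prod Z))), map_mul (W.map (snd (X.prod Z) (X.prod Z))),
      mul_assoc c, ← mul_smul_comm, ← mul_smul_comm]
    congr 1
    rw [mul_assoc, ← mul_assoc (W.map (snd (X.prod Z) (X.prod Z)) (W.map (snd X Z) β)), hsw]
    simp only [smul_mul_assoc, mul_smul_comm, mul_assoc]
  rw [e1, map_smul, ← tr_corr, hc]
  have hmem : W.map (snd X Z) α * W.map (fst X Z) a ∈ W.gr (X.prod Z) (s + i) :=
    W.mul_mem (W.map_mem _ hα) (W.map_mem _ ha)
  split_ifs with hd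
  · rw [hd] at hmem
    rw [proj_same _ hmem]
    have hsw : W.map (fst X Z) a * W.map (snd X Z) β =
        (-1 : W.K) ^ (i * s') • (W.map (snd X Z) β * W.map (fst X Z) a) :=
      W.comm (W.map_mem _ ha) (W.map_mem _ hβ)
    have e2 : W.map (snd X Z) α * W.map (fst X Z) a * (W.map (snd X Z) β * W.map (fst X Z) b) =
        (-1 : W.K) ^ (i * s') • (W.map (snd X Z) (α * β) * W.map (fst X Z) (a * b)) := by
      rw [map_mul (W.map (snd X Z)), map_mul (W.map (fst X Z)), mul_assoc,
        ← mul_assoc (W.map (fst X Z) a), hsw]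
      simp only [smul_mul_assoc, mul_smul_comm, mul_assoc]
    have e3 : W.tr (X.prod Z) (W.map (snd X Z) (α * β) * W.map (fst X Z) (a * b)) =
        W.tr X (a * b) * W.tr Z (α * β) := by
      have hcm : W.map (snd X Z) (α * β) * W.map (fst X Z) (a * b) =
          (-1 : W.K) ^ ((s + s') * (i + j)) • (W.map (fst X Z) (a * b) *
            W.map (snd X Z) (α * β)) :=
        W.comm (W.map_mem _ (W.mul_mem hα hβ)) (W.map_mem _ (W.mul_mem ha hb))
      rw [hcm, map_smul, W.tr_prod]
      by_cases hs : s + s' = 2 * Z.dim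
      · rw [hs, mul_assoc, pow_mul]
        simp
      · rw [W.tr_eq_zero (W.mul_mem hα hβ) hs]
        simp
    rw [e2, map_smul, e3, smul_mul_assoc, map_smul, smul_smul, ← pow_add]
    have : s' * i + i * s' = 2 * (s' * i) := by ring
    rw [this, pow_mul]
    simp [mul_comm]
  · rw [proj_ne _ hmem hd, zero_mul, map_zero, smul_zero, zero_smul, zero_mul, map_zero]

/-- The partial trace is a combination of the Kunneth projectors. -/
theorem corr_ptr_eq {d : ℕ} {c : W.H ((X.prod Z).prod (X.prod Z))}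
    (hc : W.corr c = proj (W.isInternal (X.prod Z)) d) (t : W.H (Z.prod Z)) :
    W.corr (W.push (q1 X Z) (c * W.map (q2 X Z) t)) =
      scal (W.isInternal X) (fun i => pco W Z d i t) := by
  apply gr_ext (W.isInternal X)
  intro i a ha
  rw [corr_ptr hc t i a ha, scal_apply _ _ ha]

end Pool.Agent.W543.KU
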