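import Pool.Agent.W543.KU.Base

/-!
# The grading by parity
-/

open Finset

namespace Pool.Agent.W543.KU

open Pool.Agent.H914 Pool.Agent.H447

variable {K : Type*} [Field K] {V : Type*} [AddCommGroup V] [Module K V]
  {gr : ℕ → Submodule K V}

/-- The sum of the even pieces in degree zero, the sum of the odd pieces in degree one. -/
def grP (gr : ℕ → Submodule K V) : ℕ → Submodule K V
  | 0 => ⨆ (i : ℕ) (_ : Even i), gr i
  | 1 => ⨆ (i : ℕ) (_ : Odd i), gr i
  | _ => ⊥

lemma grP_zero : grP gr 0 = ⨆ (i : ℕ) (_ : Even i), gr i := rfl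
lemma grP_one : grP gr 1 = ⨆ (i : ℕ) (_ : Odd i), gr i := rfl
lemma grP_ge (n : ℕ) : grP gr (n + 2) = ⊥ := rfl

lemma evenProj_even (h : DirectSum.IsInternal gr) {i : ℕ} (hi : Even i) {x : V} (hx : x ∈ gr i) :
    evenProj h x = x := by
  rw [evenProj, scal_apply h _ hx, if_pos hi, one_smul]

lemma evenProj_odd (h : DirectSum.IsInternal gr) {i : ℕ} (hi : Odd i) {x : V} (hx : x ∈ gr i) :
    evenProj h x = 0 := by
  rw [evenProj, scal_apply h _ hx, if_neg (Nat.not_even_iff_odd.2 hi), zero_smul]

lemma evenProj_grP_zero (h : DirectSum.IsInternal gr) {x : V} (hx : x ∈ grP gr 0) :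
    evenProj h x = x := by
  have : grP gr 0 ≤ LinearMap.eqLocus (evenProj h) (1 : Module.End K V) := by
    rw [grP_zero]
    refine iSup_le fun i => iSup_le fun hi => ?_
    intro y hy
    exact evenProj_even h hi hy
  exact this hx

lemma evenProj_grP_one (h : DirectSum.IsInternal gr) {x : V} (hx : x ∈ grP gr 1) :
    evenProj h x = 0 := by
  have : grP gr 1 ≤ LinearMap.ker (evenProj h) := by
    rw [grP_one]
    refine iSup_le fun i => iSup_le fun hi => ?_
    intro y hy
    exact evenProj_odd h hi hy
  exact this hx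

lemma gr_le_grP_zero {i : ℕ} (hi : Even i) : gr i ≤ grP gr 0 := by
  rw [grP_zero]
  exact le_iSup_of_le i (le_iSup_of_le hi le_rfl)

lemma gr_le_grP_one {i : ℕ} (hi : Odd i) : gr i ≤ grP gr 1 := by
  rw [grP_one]
  exact le_iSup_of_le i (le_iSup_of_le hi le_rfl)

lemma evenProj_mem (h : DirectSum.IsInternal gr) (x : V) : evenProj h x ∈ grP gr 0 := by
  refine gr_induction h (p := fun x => evenProj h x ∈ grP gr 0) ?_ ?_ x
  · intro i a ha
    rcases Nat.even_or_odd i with hi | hi
    · rw [evenProj_even h hi ha]; exact gr_le_grP_zero hi ha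
    · rw [evenProj_odd h hi ha]; exact Submodule.zero_mem _
  · intro a b ha hb
    rw [map_add]; exact Submodule.add_mem _ ha hb

lemma sub_evenProj_mem (h : DirectSum.IsInternal gr) (x : V) : x - evenProj h x ∈ grP gr 1 := by
  refine gr_induction h (p := fun x => x - evenProj h x ∈ grP gr 1) ?_ ?_ x
  · intro i a ha
    rcases Nat.even_or_odd i with hi | hi
    · rw [evenProj_even h hi ha, sub_self]; exact Submodule.zero_mem _
    · rw [evenProj_odd h hi ha, sub_zero]; exact gr_le_grP_one hi ha
  · intro a b ha hb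
    rw [map_add, add_sub_add_comm]; exact Submodule.add_mem _ ha hb

lemma grP_internal (h : DirectSum.IsInternal gr) : DirectSum.IsInternal (grP gr) := by
  apply DirectSum.isInternal_submodule_of_iSupIndep_of_iSup_eq_top
  · intro i
    match i with
    | 0 =>
      have hle : (⨆ (j : ℕ) (_ : j ≠ 0), grP gr j) ≤ LinearMap.ker (evenProj h) := by
        refine iSup_le fun j => iSup_le fun hj => ?_
        match j with
        | 0 => exact absurd rfl hj
        | 1 => intro x hx; exact evenProj_grP_one h hx
        | n + 2 => rw [grP_ge]; exact bot_le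
      rw [Submodule.disjoint_def]
      intro x hx hx'
      have h1 := hle hx'
      rw [LinearMap.mem_ker, evenProj_grP_zero h hx] at h1
      exact h1
    | 1 =>
      have hle : (⨆ (j : ℕ) (_ : j ≠ 1), grP gr j) ≤
          LinearMap.eqLocus (evenProj h) (1 : Module.End K V) := by
        refine iSup_le fun j => iSup_le fun hj => ?_
        match j with
        | 0 => intro x hx; exact evenProj_grP_zero h hx
        | 1 => exact absurd rfl hj
        | n + 2 => rw [grP_ge]; exact bot_le
      rw [Submodule.disjoint_def]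
      intro x hx hx'
      have h1 : evenProj h x = x := hle hx'
      rw [← h1, evenProj_grP_one h hx]
    | n + 2 => rw [grP_ge]; exact disjoint_bot_left
  · rw [eq_top_iff]
    intro x _
    have h1 : x = evenProj h x + (x - evenProj h x) := by abel
    rw [h1]
    exact Submodule.add_mem _ (Submodule.mem_iSup_of_mem 0 (evenProj_mem h x))
      (Submodule.mem_iSup_of_mem 1 (sub_evenProj_mem h x))

lemma proj_grP_zero (h : DirectSum.IsInternal gr) : proj (grP_internal h) 0 = evenProj h := by
  apply gr_ext (grP_internal h)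
  intro i x hx
  match i with
  | 0 => rw [proj_same _ hx, evenProj_grP_zero h hx]
  | 1 => rw [proj_ne _ hx one_ne_zero, evenProj_grP_one h hx]
  | n + 2 =>
    rw [grP_ge] at hx
    rw [(Submodule.mem_bot _).1 hx, map_zero, map_zero]

lemma mem_gr_of_hom {f : Module.End K V} (hf : IsHom gr 0 f) {i : ℕ} {x : V} (hx : x ∈ gr i) :
    f x ∈ gr i := by
  have := hf i x (by rw [grZ_natCast]; exact hx)
  rwa [add_zero, grZ_natCast] at this

lemma isHom_grP {f : Module.End K V} (hf : IsHom gr 0 f) : IsHom (grP gr) 0 f := by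
  intro i x hx
  rw [add_zero]
  by_cases hi : 0 ≤ i
  · lift i to ℕ using hi
    rw [grZ_natCast] at hx ⊢
    match i with
    | 0 =>
      have : grP gr 0 ≤ (grP gr 0).comap f := by
        conv_lhs => rw [grP_zero]
        refine iSup_le fun j => iSup_le fun hj => ?_
        intro y hy
        exact gr_le_grP_zero hj (mem_gr_of_hom hf hy)
      exact this hx
    | 1 =>
      have : grP gr 1 ≤ (grP gr 1).comap f := by
        conv_lhs => rw [grP_one]
        refine iSup_le fun j => iSup_le fun hj => ?_
        intro y hy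
        exact gr_le_grP_one hj (mem_gr_of_hom hf hy)
      exact this hx
    | n + 2 =>
      rw [grP_ge] at hx ⊢
      rw [(Submodule.mem_bot _).1 hx, map_zero]
      exact Submodule.zero_mem _
  · rw [grZ_of_neg (by omega)] at hx ⊢
    rw [(Submodule.mem_bot _).1 hx, map_zero]
    exact Submodule.zero_mem _

/-- The even projector lies in an algebra of operators whose stable subspaces are graded by
parity. -/
lemma evenProj_mem_of_stable [Module.Finite K V] (h : DirectSum.IsInternal gr)
    {S : Subalgebra K (Module.End K V)} (hS : ∀ s ∈ S, IsHom gr 0 s)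
    (hG : ∀ N : Submodule K V, (∀ s ∈ S, ∀ x ∈ N, s x ∈ N) → ∀ x ∈ N, evenProj h x ∈ N) :
    evenProj h ∈ S := by
  have h2 := grP_internal h
  have hprojne : ∀ i, 2 ≤ i → ∀ x, proj h2 i x = 0 := by
    intro i hi x
    obtain ⟨m, rfl⟩ : ∃ m, i = m + 2 := ⟨i - 2, by omega⟩
    have := proj_mem h2 (m + 2) x
    rw [grP_ge] at this
    exact (Submodule.mem_bot _).1 this
  obtain ⟨v, hv, h3, h4⟩ := comax (S := S) h2 (fun s hs => isHom_grP (hS s hs))
    (fun N hN x hx i => by
      have h0 : evenProj h x ∈ N := hG N hN x hx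
      match i with
      | 0 => rw [proj_grP_zero h]; exact h0
      | 1 =>
        have h5 := congrArg (fun F => F x) (sum_proj h2 (N := 2) (fun i hi => by
          obtain ⟨m, rfl⟩ : ∃ m, i = m + 2 := ⟨i - 2, by omega⟩
          exact grP_ge m))
        simp only [Finset.sum_range_succ, Finset.sum_range_zero, zero_add, LinearMap.add_apply,
          Module.End.one_apply, proj_grP_zero h] at h5
        have h6 : proj h2 1 x = x - evenProj h x := by rw [eq_sub_iff_add_eq', h5]
        rw [h6]
        exact N.sub_mem hx h0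
      | n + 2 => rw [hprojne (n + 2) (by omega)]; exact N.zero_mem)
    (i := 0) (j := 1) (by norm_num)
  have : evenProj h = v := by
    apply gr_ext h2
    intro i x hx
    match i with
    | 0 => rw [evenProj_grP_zero h hx, h3 x hx]
    | 1 => rw [evenProj_grP_one h hx, h4 x hx]
    | n + 2 =>
      rw [grP_ge] at hx
      rw [(Submodule.mem_bot _).1 hx, map_zero, map_zero]
  rw [this]
  exact hv

/-- The even projector from elements which separate the even from the odd pieces. -/
lemma evenProj_mem_of_sep (h : DirectSum.IsInternal gr) {N : ℕ} (hbd : ∀ i, N ≤ i → gr i = ⊥)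
    {S : Subalgebra K (Module.End K V)} (hS : ∀ s ∈ S, IsHom gr 0 s)
    (hc : ∀ i j, Even i → Odd j → ∃ v ∈ S, (∀ x ∈ gr i, v x = x) ∧ (∀ x ∈ gr j, v x = 0)) :
    evenProj h ∈ S := by
  classical
  have hSgr : ∀ s ∈ S, ∀ (l : ℕ) (v : V), v ∈ gr l → s v ∈ gr l := fun s hs l v hv =>
    mem_gr_of_hom (hS s hs) hv
  -- an element which is one on `gr i` and zero on all odd pieces
  have key : ∀ i, Even i → ∀ T : Finset ℕ, (∀ j ∈ T, Odd j) → ∃ v ∈ S, (∀ x ∈ gr i, v x = x) ∧
      ∀ j ∈ T, ∀ x ∈ gr j, v x = 0 := by
    intro i hi T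
    induction T using Finset.induction_on with
    | empty => exact fun _ => ⟨1, S.one_mem, fun x _ => rfl, fun j hj => by simp at hj⟩
    | insert l T hl ih =>
      intro hT
      obtain ⟨v, hv, h1, h2⟩ := ih (fun j hj => hT j (Finset.mem_insert_of_mem hj))
      obtain ⟨w, hw, h3, h4⟩ := hc i l hi (hT l (Finset.mem_insert_self _ _))
      refine ⟨v * w, S.mul_mem hv hw, ?_, ?_⟩
      · intro x hx
        rw [Module.End.mul_apply, h3 x hx, h1 x hx]
      · intro j hj x hx
        rw [Module.End.mul_apply]
        rcases Finset.mem_insert.1 hj with rfl | hj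
        · rw [h4 x hx, map_zero]
        · exact h2 j hj _ (hSgr w hw j x hx)
  set O := (range N).filter Odd with hO
  have key2 : ∀ T : Finset ℕ, (∀ j ∈ T, Even j) → ∃ u ∈ S, (∀ j ∈ T, ∀ x ∈ gr j, u x = 0) ∧
      ∀ j ∈ O, ∀ x ∈ gr j, u x = x := by
    intro T
    induction T using Finset.induction_on with
    | empty => exact fun _ => ⟨1, S.one_mem, fun j hj => by simp at hj, fun j _ x _ => rfl⟩
    | insert l T hl ih =>
      intro hT
      obtain ⟨u, hu, h1, h2⟩ := ih (fun j hj => hT j (Finset.mem_insert_of_mem hj))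
      obtain ⟨w, hw, h3, h4⟩ := key l (hT l (Finset.mem_insert_self _ _)) O
        (fun j hj => (Finset.mem_filter.1 hj).2)
      refine ⟨u * (1 - w), S.mul_mem hu (S.sub_mem S.one_mem hw), ?_, ?_⟩
      · intro j hj x hx
        rw [Module.End.mul_apply, LinearMap.sub_apply, Module.End.one_apply]
        rcases Finset.mem_insert.1 hj with rfl | hj
        · rw [h3 x hx, sub_self, map_zero]
        · exact h1 j hj _ (Submodule.sub_mem _ hx (hSgr w hw j x hx))
      · intro j hj x hx
        rw [Module.End.mul_apply, LinearMap.sub_apply, Module.End.one_apply, h4 j hj x hx,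
          sub_zero, h2 j hj x hx]
  obtain ⟨u, hu, h1, h2⟩ := key2 ((range N).filter Even) (fun j hj => (Finset.mem_filter.1 hj).2)
  have : evenProj h = 1 - u := by
    apply gr_ext h
    intro j x hx
    rw [LinearMap.sub_apply, Module.End.one_apply]
    by_cases hjN : j < N
    · rcases Nat.even_or_odd j with hj | hj
      · rw [evenProj_even h hj hx, h1 j (by simp [hj, hjN]) x hx, sub_zero]
      · rw [evenProj_odd h hj hx, h2 j (by simp [hO, hj, hjN]) x hx, sub_self]
    · rw [hbd j (by omega)] at hx
      rw [(Submodule.mem_bot _).1 hx, map_zero, map_zero, sub_zero]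
  rw [this]
  exact S.sub_mem S.one_mem hu

end Pool.Agent.W543.KU
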