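import Pool.Agent.W543.KU.RatDefs
import Pool.Agent.W543.KU.Base

/-!
# Rational and `K`-linear Kunneth components
-/

open Polynomial Finset

universe u v

namespace Pool.Agent.W543.KU

open Pool.Agent.H914 Pool.Agent.H447 VarClass Obj WeilCohomology

section Abs

variable {K : Type*} [Field K] {V : Type*} [AddCommGroup V] [Module K V]
  [Module.Finite K V] {gr : ℕ → Submodule K V}

lemma trace_onDeg (h : DirectSum.IsInternal gr) (i : ℕ) (f : Module.End K V) :
    LinearMap.trace K (gr i) (onDeg h i f) = LinearMap.trace K V (proj h i * f) := by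
  have h1 : ∀ x, (proj h i * f) x ∈ gr i := fun x => proj_mem h i _
  have h2 := LinearMap.trace_restrict_eq_of_forall_mem (gr i) (proj h i * f) (fun x => h1 x)
  rw [← h2]
  congr 1

variable [CharZero K] {n : ℕ} {R : ℤ → Module.End K V → Prop}

/-- Descent of the projectors when their traces are rational. -/
theorem proj_descent (hR : OpAlg gr R) (h : DirectSum.IsInternal gr)
    (hbd : ∀ i, 2 * n + 1 ≤ i → gr i = ⊥)
    (hstr : ∀ y, R 0 y → ∃ q : ℚ, LinearMap.trace K V (par h * y) = q)
    (hK : ∀ i, proj h i ∈ KS R 0)
    (htr : ∀ y, R 0 y → ∀ i, ∃ q : ℚ, LinearMap.trace K V (proj h i * y) = q) (i : ℕ) :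
    R 0 (proj h i) := by
  obtain ⟨ret, hret⟩ := exists_retract K
  choose T hT hTn using fun i => hR.exists_twist h hstr (ret := ret) (hK i)
  have hnum : ∀ i, ∀ y, R 0 y → LinearMap.trace K V (par h * (T i * y)) =
      LinearMap.trace K V (par h * (proj h i * y)) := by
    intro i y hy
    rw [hTn i y (by simpa using hy)]
    obtain ⟨q, hq⟩ := htr y hy i
    have h1 : LinearMap.trace K V (par h * (proj h i * y)) = (((-1 : ℚ) ^ i * q : ℚ) : K) := by
      rw [← mul_assoc, par_mul_proj, smul_mul_assoc, map_smul, hq]
      push_cast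
      rfl
    rw [h1, ret_ratCast hret]
  have hnumK : ∀ i, ∀ y ∈ KS R 0, LinearMap.trace K V (par h * (T i * y)) =
      LinearMap.trace K V (par h * (proj h i * y)) := by
    intro i y hy
    induction hy using Submodule.span_induction with
    | mem x hx => exact hnum i x hx
    | zero => simp
    | add x y _ _ hx hy => simp only [mul_add, map_add, hx, hy]
    | smul c x _ hx => simp only [mul_smul_comm, map_smul, hx]
  apply kunneth_of_num hR h hbd (T := T) hT hnum
  intro i j
  refine ⟨?_, ?_⟩
  · apply hR.sub
    · exact hR.cast (hR.mul (hT j) (hT i)) (by simp)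
    · split_ifs
      · exact hT i
      · exact hR.zero 0
  · intro y hy
    rw [neg_zero] at hy
    have hph : IsHom gr (2 * 0) (proj h j) := by
      rw [mul_zero]
      exact isHom_scal h _
    have e1 : LinearMap.trace K V (par h * (T j * T i * y)) =
        LinearMap.trace K V (par h * (proj h j * (T i * y))) := by
      rw [mul_assoc, hnum j (T i * y) (hR.cast (hR.mul (hT i) hy) (by simp))]
    have e2 : LinearMap.trace K V (par h * (proj h j * (T i * y))) =
        LinearMap.trace K V (par h * (T i * (y * proj h j))) := by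
      rw [str_comm h hph, mul_assoc]
    have e3 : LinearMap.trace K V (par h * (T i * (y * proj h j))) =
        LinearMap.trace K V (par h * (proj h i * (y * proj h j))) := by
      apply hnumK
      have := hR.kspan.mul (Submodule.subset_span hy : y ∈ KS R 0) (hK j)
      simpa using this
    have e4 : LinearMap.trace K V (par h * (proj h i * (y * proj h j))) =
        LinearMap.trace K V (par h * (proj h j * proj h i * y)) := by
      rw [← mul_assoc (proj h i), ← str_comm h hph, mul_assoc]
    rw [sub_mul, mul_sub, map_sub, e1, e2, e3, e4]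
    split_ifs with hij
    · subst hij
      rw [proj_mul_proj, hnum i y hy, sub_self]
    · rw [proj_mul_ne h (Ne.symm hij)]
      simp

end Abs

variable {k : Type u} [Field k] {𝒱 : VarClass k} {ops : CycleOps 𝒱}
  {W : WeilCohomology.{u, v} ops} {X Y : 𝒱.Obj}

/-- **Rational and `K`-linear Kunneth components.** -/
theorem kunneth_iff_rational_traces :
    KunnethStd W X ↔ KunnethSpan W X ∧ HasRationalTraces W X := by
  have h := W.isInternal X
  have hOA := rop_opAlg (W := W) (X := X)
  constructor
  · intro hK
    refine ⟨?_, ?_⟩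
    · rw [kunnethSpan_iff]
      intro i
      have := kunneth_rop hK i
      rw [mem_opS, ← mem_KS_iff]
      exact Submodule.subset_span this
    · intro z hz i
      obtain ⟨q, hq⟩ := rop_str (W := W) (X := X) (proj h i * W.corr (W.cl _ z))
        (hOA.cast (hOA.mul (kunneth_rop hK i) (rop_corr (d := 0) (by simp) hz)) (by simp))
      refine ⟨(-1) ^ i * q, ?_⟩
      rw [trOn, trace_onDeg]
      rw [← mul_assoc, par_mul_proj, smul_mul_assoc, map_smul, smul_eq_mul] at hq
      push_cast
      rw [← hq, ← mul_assoc, ← mul_pow]
      simp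
  · rintro ⟨hK, htr⟩
    apply kunneth_of_rop
    rw [kunnethSpan_iff] at hK
    apply proj_descent hOA h W_hbd rop_str (fun i => mem_KS_iff.2 (hK i))
    intro y hy i
    obtain ⟨z, hz, rfl⟩ := exists_of_rop (p := X.dim) (by simp) hy
    rw [← trace_onDeg]
    exact htr z hz i

end Pool.Agent.W543.KU
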