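import Pool.Agent.W543.KU.RankDefs
import Pool.Agent.W543.KU.RatTr
import Pool.Agent.W543.KU.Char

/-!
# Ranks of trace forms
-/

open Polynomial Finset

universe u v

namespace Pool.Agent.W543.KU

open Pool.Agent.H914 Pool.Agent.H447

section Gen

variable {K : Type*} [Field K]

/-- The rank of a bilinear form restricted to spanning families. -/
lemma pairRank_eq {A : Type*} [AddCommGroup A] [Module K A] {Z Z' : Type*} (c : Z → A)
    (c' : Z' → A) (hc : Submodule.span K (Set.range c) = ⊤)
    (hc' : Submodule.span K (Set.range c') = ⊤) (B : A →ₗ[K] A →ₗ[K] K) :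
    pairRank (fun z w => B (c z) (c' w)) = Module.finrank K (LinearMap.range B) := by
  let r : (A →ₗ[K] K) →ₗ[K] (Z' → K) :=
    { toFun := fun l w => l (c' w)
      map_add' := fun _ _ => rfl
      map_smul' := fun _ _ => rfl }
  have hr : Function.Injective r := by
    rw [injective_iff_map_eq_zero]
    intro l hl
    have h1 : ∀ x ∈ Submodule.span K (Set.range c'), l x = 0 := by
      intro x hx
      induction hx using Submodule.span_induction with
      | mem x hx =>
        obtain ⟨w, rfl⟩ := hx
        exact congrFun hl w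
      | zero => exact map_zero _
      | add x y _ _ hx hy => rw [map_add, hx, hy, add_zero]
      | smul a x _ hx => rw [map_smul, hx, smul_zero]
    ext x
    exact h1 x (by rw [hc']; trivial)
  have h2 : Submodule.span K (Set.range (fun z w => B (c z) (c' w))) =
      (LinearMap.range B).map r := by
    have h3 : Set.range (fun z w => B (c z) (c' w)) = r '' (B '' (Set.range c)) := by
      ext x
      constructor
      · rintro ⟨z, rfl⟩
        exact ⟨B (c z), ⟨c z, ⟨z, rfl⟩, rfl⟩, rfl⟩
      · rintro ⟨_, ⟨_, ⟨z, rfl⟩, rfl⟩, rfl⟩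
        exact ⟨z, rfl⟩
    rw [h3, Submodule.span_image, Submodule.span_image, hc, LinearMap.range_eq_map]
  rw [pairRank, h2]
  exact (LinearEquiv.finrank_eq (Submodule.equivMapOfInjective r hr (LinearMap.range B))).symm

/-- Rational functions which are linearly independent over `ℚ` are so over `K`. -/
lemma linInd_cast [CharZero K] {ι Z : Type*} {v : ι → Z → ℚ} (hv : LinearIndependent ℚ v) :
    LinearIndependent K (fun i => fun w => ((v i w : ℚ) : K)) := by
  rw [linearIndependent_iff'] at hv ⊢
  intro s c hc i hi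
  -- separate by rational functionals
  have key : ∀ ρ : K →ₗ[ℚ] ℚ, ρ (c i) = 0 := by
    intro ρ
    refine hv s (fun i => ρ (c i)) ?_ i hi
    funext w
    have h1 := congrFun hc w
    rw [Finset.sum_apply] at h1 ⊢
    have h2 := congrArg ρ h1
    rw [Pi.zero_apply, map_zero, map_sum] at h2
    rw [Pi.zero_apply, ← h2]
    apply Finset.sum_congr rfl
    intro j _
    simp only [Pi.smul_apply, smul_eq_mul]
    rw [ret_mul]
  exact (Module.forall_dual_apply_eq_zero_iff ℚ (c i)).1 key

/-- Rational functions as functions with values in `K`. -/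
def castF (K : Type*) [Field K] {Z : Type*} (v : Z → ℚ) : Z → K := fun w => ((v w : ℚ) : K)

lemma span_cast [CharZero K] {Z : Type*} {S : Set (Z → ℚ)} {v : Z → ℚ}
    (hv : v ∈ Submodule.span ℚ S) : castF K v ∈ Submodule.span K (castF K '' S) := by
  induction hv using Submodule.span_induction with
  | mem x hx => exact Submodule.subset_span ⟨x, hx, rfl⟩
  | zero =>
    have : castF K (0 : Z → ℚ) = 0 := by
      funext w; simp [castF]
    rw [this]
    exact Submodule.zero_mem _
  | add x y _ _ hx hy =>
    have : castF K (x + y) = castF K x + castF K y := by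
      funext w; simp [castF]
    rw [this]
    exact Submodule.add_mem _ hx hy
  | smul a x _ hx =>
    have : castF K (a • x) = (a : K) • castF K x := by
      funext w; simp [castF]
    rw [this]
    exact Submodule.smul_mem _ _ hx

/-- The rank of a rational pairing does not change under extension of the field. -/
lemma pairRank_cast [CharZero K] {Z Z' : Type*} (b : Z → Z' → ℚ) :
    pairRank (fun z w => ((b z w : ℚ) : K)) = pairRank b := by
  set ι : (Z' → ℚ) → (Z' → K) := castF K with hι
  obtain ⟨S, hS1, hS2, hS3⟩ := exists_linearIndependent ℚ (Set.range b)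
  have h1 : pairRank b = Nat.card S := by
    rw [pairRank, ← hS2]
    have hb := Module.Basis.span hS3
    rw [Subtype.range_coe] at hb
    exact Module.finrank_eq_nat_card_basis hb
  have h2 : LinearIndependent K (fun v : S => ι v.1) := linInd_cast hS3
  have h3 : Submodule.span K (Set.range (fun z w => ((b z w : ℚ) : K))) =
      Submodule.span K (Set.range (fun v : S => ι v.1)) := by
    have e1 : Set.range (fun z w => ((b z w : ℚ) : K)) = ι '' Set.range b := by
      ext x
      constructor
      · rintro ⟨z, rfl⟩; exact ⟨b z, ⟨z, rfl⟩, rfl⟩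
      · rintro ⟨_, ⟨z, rfl⟩, rfl⟩; exact ⟨z, rfl⟩
    have e2 : Set.range (fun v : S => ι v.1) = ι '' S := by
      ext x
      constructor
      · rintro ⟨v, rfl⟩; exact ⟨v.1, v.2, rfl⟩
      · rintro ⟨v, hv, rfl⟩; exact ⟨⟨v, hv⟩, rfl⟩
    rw [e1, e2]
    apply le_antisymm
    · rw [Submodule.span_le]
      rintro _ ⟨v, hv, rfl⟩
      exact span_cast (by rw [hS2]; exact Submodule.subset_span hv)
    · exact Submodule.span_mono (Set.image_mono hS1)
  rw [h1, pairRank, h3]
  exact Module.finrank_eq_nat_card_basis (Module.Basis.span h2)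

/-- The rank of a signed sum of linear maps. -/
lemma rank_sum_le {A B : Type*} [AddCommGroup A] [Module K A] [AddCommGroup B] [Module K B]
    [Module.Finite K B] {N : ℕ} (φ : Fin N → A →ₗ[K] B) (ε : Fin N → K) (ψ : A →ₗ[K] B)
    (hψ : ψ = ∑ i, ε i • φ i) :
    Module.finrank K (LinearMap.range ψ) ≤ ∑ i, Module.finrank K (LinearMap.range (φ i)) ∧
    (Module.finrank K (LinearMap.range ψ) = ∑ i, Module.finrank K (LinearMap.range (φ i)) →
      ∀ t : Fin N → A, ∃ a, ∀ i, φ i a = φ i (t i)) := by
  let Φ : A →ₗ[K] (∀ i : Fin N, LinearMap.range (φ i)) :=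
    LinearMap.pi (fun i => (φ i).rangeRestrict)
  let σ : (∀ i : Fin N, LinearMap.range (φ i)) →ₗ[K] B :=
    ∑ i : Fin N, ε i • ((LinearMap.range (φ i)).subtype ∘ₗ LinearMap.proj i)
  have hσ : ψ = σ ∘ₗ Φ := by
    ext f
    rw [hψ]
    simp [σ, Φ, LinearMap.sum_apply]
  have hdim : Module.finrank K (∀ i : Fin N, LinearMap.range (φ i)) =
      ∑ i, Module.finrank K (LinearMap.range (φ i)) := Module.finrank_pi_fintype K
  have hle1 : Module.finrank K (LinearMap.range ψ) ≤ Module.finrank K (LinearMap.range Φ) := by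
    rw [hσ, LinearMap.range_comp]
    exact Submodule.finrank_map_le _ _
  have hle2 : Module.finrank K (LinearMap.range Φ) ≤
      Module.finrank K (∀ i : Fin N, LinearMap.range (φ i)) :=
    Submodule.finrank_le _
  refine ⟨by rw [← hdim]; exact hle1.trans hle2, ?_⟩
  intro heq t
  rw [← hdim] at heq
  have htop : LinearMap.range Φ = ⊤ := by
    apply Submodule.eq_top_of_finrank_eq
    omega
  obtain ⟨a, ha⟩ : (fun i => (φ i).rangeRestrict (t i)) ∈ LinearMap.range Φ := by
    rw [htop]; trivial
  refine ⟨a, fun i => ?_⟩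
  have h1 := congrArg (fun x => ((x i : LinearMap.range (φ i)) : B)) ha
  exact h1

/-- The converse. -/
lemma rank_sum_eq {A B : Type*} [AddCommGroup A] [Module K A] [AddCommGroup B] [Module K B]
    [Module.Finite K B] {N : ℕ} (φ : Fin N → A →ₗ[K] B) (ψ : A →ₗ[K] B)
    (h1 : ∀ t : Fin N → A, ∃ a, ∀ i, φ i a = φ i (t i))
    (h2 : ∀ a, ψ a = 0 → ∀ i, φ i a = 0) :
    ∑ i, Module.finrank K (LinearMap.range (φ i)) ≤ Module.finrank K (LinearMap.range ψ) := by
  let Φ : A →ₗ[K] (∀ i : Fin N, LinearMap.range (φ i)) :=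
    LinearMap.pi (fun i => (φ i).rangeRestrict)
  have hdim : Module.finrank K (∀ i : Fin N, LinearMap.range (φ i)) =
      ∑ i, Module.finrank K (LinearMap.range (φ i)) := Module.finrank_pi_fintype K
  have hsurj : LinearMap.range Φ = ⊤ := by
    rw [LinearMap.range_eq_top]
    intro y
    have hy : ∀ i, ∃ a, (φ i).rangeRestrict a = y i := fun i =>
      LinearMap.surjective_rangeRestrict (φ i) (y i)
    choose t ht using hy
    obtain ⟨a, ha⟩ := h1 t
    refine ⟨a, ?_⟩
    funext i
    rw [← ht i]
    exact Subtype.ext (ha i)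
  have hker : LinearMap.ker ψ ≤ LinearMap.ker Φ := by
    intro a ha
    rw [LinearMap.mem_ker] at ha ⊢
    funext i
    exact Subtype.ext (h2 a ha i)
  -- the map induced on the range
  let g : LinearMap.range ψ →ₗ[K] (∀ i : Fin N, LinearMap.range (φ i)) :=
    (Submodule.liftQ (LinearMap.ker ψ) Φ hker) ∘ₗ (ψ.quotKerEquivRange.symm).toLinearMap
  have hg : LinearMap.range g = ⊤ := by
    rw [LinearMap.range_eq_top]
    intro y
    have hy : y ∈ LinearMap.range Φ := by rw [hsurj]; trivial
    obtain ⟨a, ha⟩ := hy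
    refine ⟨ψ.quotKerEquivRange (Submodule.Quotient.mk a), ?_⟩
    simp only [g, LinearMap.comp_apply, LinearEquiv.coe_coe, LinearEquiv.symm_apply_apply]
    rw [← ha]
    exact Submodule.liftQ_apply _ _ _
  have h3 := LinearMap.finrank_range_le g
  rw [hg, finrank_top, hdim] at h3
  exact h3

end Gen

section Abs

variable {K : Type*} [Field K] [CharZero K] {V : Type*} [AddCommGroup V] [Module K V]
  [Module.Finite K V] {gr : ℕ → Submodule K V}

/-- The form `(f, g) ↦ tr (e f g)` on an algebra of operators. -/
noncomputable def trForm (S : Subalgebra K (Module.End K V)) (e : Module.End K V) :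
    S →ₗ[K] S →ₗ[K] K :=
  LinearMap.mk₂ K (fun f g => LinearMap.trace K V (e * (f * g)))
    (fun f f' g => by simp [add_mul, mul_add])
    (fun c f g => by simp)
    (fun f g g' => by simp [mul_add])
    (fun c f g => by simp)

omit [CharZero K] [Module.Finite K V] in
lemma trForm_apply (S : Subalgebra K (Module.End K V)) (e : Module.End K V) (f g : S) :
    trForm S e f g = LinearMap.trace K V (e * (f * g)) := rfl

/-- An element acting as `1` on `gr i` and as `0` on `gr j` up to the radicals of the trace
forms. -/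
lemma sep_of_traces (h : DirectSum.IsInternal gr) {S : Subalgebra K (Module.End K V)}
    {e : Module.End K V} (heS : e ∈ S) (he : IsHom gr 0 e) {i j : ℕ}
    (hei : ∀ g ∈ S, LinearMap.trace K V (proj h i * (e * g)) = LinearMap.trace K V (proj h i * g))
    (hej : ∀ g ∈ S, LinearMap.trace K V (proj h j * (e * g)) = 0) :
    ∃ v ∈ S, (∀ x ∈ gr i, v x = x) ∧ (∀ x ∈ gr j, v x = 0) := by
  have hpow : ∀ r : ℕ, e ^ r ∈ S := fun r => S.pow_mem heS r
  have hcomm : ∀ l, Commute (proj h l) e := fun l => he.proj_comm h l
  -- nilpotent on `gr j`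
  have hn2 : IsNilpotent (proj h j * e) := by
    apply isNilpotent_of_trace_pow
    intro r
    have hp : proj h j ^ (r + 1) = proj h j := by
      induction r with
      | zero => rw [zero_add, pow_one]
      | succ r ih => rw [pow_succ, ih, proj_mul_proj]
    rw [(hcomm j).mul_pow, hp, pow_succ']
    exact hej _ (hpow r)
  have hn1 : IsNilpotent (proj h i * (1 - e)) := by
    have hc : Commute (proj h i) (1 - e) := (Commute.one_right _).sub_right (hcomm i)
    apply isNilpotent_of_trace_pow
    intro r
    have hp : proj h i ^ (r + 1) = proj h i := by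
      induction r with
      | zero => rw [zero_add, pow_one]
      | succ r ih => rw [pow_succ, ih, proj_mul_proj]
    rw [hc.mul_pow, hp, pow_succ']
    have hm : (1 - e) ^ r ∈ S := S.pow_mem (S.sub_mem S.one_mem heS) r
    rw [sub_mul, one_mul, mul_sub, map_sub, hei _ hm, sub_self]
  obtain ⟨N1, hN1⟩ := hn1
  obtain ⟨N2, hN2⟩ := hn2
  have hgr : ∀ (l : ℕ) (x : V), x ∈ gr l → e x ∈ gr l := by
    intro l x hx
    have := he l x (by rw [grZ_natCast]; exact hx)
    rwa [add_zero, grZ_natCast] at this
  have hk1 : ∀ (r : ℕ), ∀ x ∈ gr i, ((proj h i * (1 - e)) ^ r) x = ((1 - e) ^ r) x := by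
    intro r
    have hstep : ∀ y ∈ gr i, (proj h i * (1 - e)) y = (1 - e) y ∧ (1 - e) y ∈ gr i := by
      intro y hy
      have h1 : (1 - e) y ∈ gr i := by
        rw [LinearMap.sub_apply, Module.End.one_apply]
        exact Submodule.sub_mem _ hy (hgr i y hy)
      exact ⟨by rw [Module.End.mul_apply, proj_same h h1], h1⟩
    induction r with
    | zero => intro x _; rfl
    | succ r ih =>
      intro x hx
      rw [pow_succ, pow_succ]
      change ((proj h i * (1 - e)) ^ r) ((proj h i * (1 - e)) x) = ((1 - e) ^ r) ((1 - e) x)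
      rw [(hstep x hx).1, ih _ (hstep x hx).2]
  have hk2 : ∀ (r : ℕ), ∀ x ∈ gr j, ((proj h j * e) ^ r) x = (e ^ r) x := by
    intro r
    induction r with
    | zero => intro x _; rfl
    | succ r ih =>
      intro x hx
      have h1 : (proj h j * e) x = e x := by
        rw [Module.End.mul_apply, proj_same h (hgr j x hx)]
      rw [pow_succ, pow_succ]
      change ((proj h j * e) ^ r) ((proj h j * e) x) = (e ^ r) (e x)
      rw [h1, ih _ (hgr j x hx)]
  have hz1 : ∀ x ∈ gr i, ((1 - e) ^ N1) x = 0 := by
    intro x hx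
    rw [← hk1 N1 x hx, hN1, LinearMap.zero_apply]
  have hz2 : ∀ x ∈ gr j, (e ^ N2) x = 0 := by
    intro x hx
    rw [← hk2 N2 x hx, hN2, LinearMap.zero_apply]
  -- Bezout
  have hcop : IsCoprime ((1 - X : K[X]) ^ N1) (X ^ N2) := by
    apply IsCoprime.pow
    exact ⟨1, 1, by ring⟩
  obtain ⟨a, b, hab⟩ := hcop
  have e1 : aeval e ((1 - X : K[X]) ^ N1) = (1 - e) ^ N1 := by simp
  have e2 : aeval e ((X : K[X]) ^ N2) = e ^ N2 := by simp
  refine ⟨aeval e (b * X ^ N2), ?_, ?_, ?_⟩
  · exact (Algebra.adjoin_le (Set.singleton_subset_iff.2 heS)) (aeval_mem_adjoin_singleton K e)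
  · intro x hx
    have h1 : aeval e (a * (1 - X) ^ N1 + b * X ^ N2) x = x := by
      rw [hab, map_one, Module.End.one_apply]
    rw [map_add, LinearMap.add_apply, map_mul (aeval e) a, Module.End.mul_apply, e1, hz1 x hx,
      map_zero, zero_add] at h1
    exact h1
  · intro x hx
    rw [map_mul, Module.End.mul_apply, e2, hz2 x hx, map_zero]

/-- **Additivity of the ranks of the trace forms.** -/
theorem rank_add (h : DirectSum.IsInternal gr) {N : ℕ} (hbd : ∀ i, N ≤ i → gr i = ⊥)
    {S : Subalgebra K (Module.End K V)} (hS : ∀ s ∈ S, IsHom gr 0 s) :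
    Module.finrank K (LinearMap.range (trForm S (par h))) ≤
      ∑ i ∈ range N, Module.finrank K (LinearMap.range (trForm S (proj h i))) ∧
    (Module.finrank K (LinearMap.range (trForm S (par h))) =
      ∑ i ∈ range N, Module.finrank K (LinearMap.range (trForm S (proj h i))) ↔
        ∀ i, proj h i ∈ S) := by
  classical
  have hpar : par h = ∑ i ∈ range N, ((-1 : K) ^ i) • proj h i := by
    rw [par, scal_eq_sum h hbd]
  have hψ : trForm S (par h) = ∑ i : Fin N, ((-1 : K) ^ (i : ℕ)) • trForm S (proj h i) := by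
    ext f g
    rw [trForm_apply, hpar, Finset.sum_mul, map_sum, Finset.sum_range]
    simp [trForm_apply, LinearMap.sum_apply]
  obtain ⟨h1, h2⟩ := rank_sum_le (fun i : Fin N => trForm S (proj h i))
    (fun i => (-1 : K) ^ (i : ℕ)) (trForm S (par h)) hψ
  rw [Finset.sum_range]
  refine ⟨h1, ?_, ?_⟩
  · intro heq
    have h3 := h2 heq
    apply proj_of_comax h hbd hS
    intro i j hij
    by_cases hi : i < N
    · by_cases hj : j < N
      · obtain ⟨e, he⟩ := h3 (fun l => if (l : ℕ) = i then 1 else 0)
        have hei := he ⟨i, hi⟩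
        have hej := he ⟨j, hj⟩
        simp only [if_true] at hei
        simp only [if_neg (Ne.symm hij), map_zero] at hej
        apply sep_of_traces h e.2 (hS _ e.2)
        · intro g hg
          have h4 := congrArg (fun F => F ⟨g, hg⟩) hei
          simp only [trForm_apply] at h4
          simpa using h4
        · intro g hg
          have h4 := congrArg (fun F => F ⟨g, hg⟩) hej
          simp only [trForm_apply] at h4
          simpa using h4
      · refine ⟨1, S.one_mem, fun x _ => rfl, fun x hx => ?_⟩
        rw [hbd j (by omega)] at hx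
        rw [(Submodule.mem_bot _).1 hx, map_zero]
    · refine ⟨0, S.zero_mem, fun x hx => ?_, fun x _ => rfl⟩
      rw [hbd i (by omega)] at hx
      rw [(Submodule.mem_bot _).1 hx, map_zero]
  · intro hP
    apply le_antisymm h1
    apply rank_sum_eq
    · intro t
      refine ⟨∑ i : Fin N, ⟨proj h i, hP i⟩ * t i, fun i => ?_⟩
      ext g
      rw [trForm_apply, trForm_apply]
      congr 1
      have h4 : ((∑ l : Fin N, (⟨proj h l, hP l⟩ : S) * t l : S) : Module.End K V) =
          ∑ l : Fin N, proj h l * (t l : Module.End K V) := by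
        rw [AddSubmonoidClass.coe_finsetSum]
        rfl
      rw [h4, Finset.sum_mul, Finset.mul_sum, Finset.sum_eq_single i]
      · rw [mul_assoc, ← mul_assoc, proj_mul_proj]
      · intro l _ hl
        rw [mul_assoc, ← mul_assoc, proj_mul_ne h (fun e => hl (Fin.ext e.symm)), zero_mul]
      · intro hn; exact absurd (Finset.mem_univ i) hn
    · intro f hf i
      ext g
      have h4 := congrArg (fun F => F (g * ⟨proj h i, hP i⟩)) hf
      simp only [trForm_apply, LinearMap.zero_apply] at h4
      rw [trForm_apply, LinearMap.zero_apply]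
      have hfg : IsHom gr 0 ((f : Module.End K V) * g) := by
        have := (hS f f.2).mul (hS g g.2)
        rwa [add_zero] at this
      have h5 : (f : Module.End K V) * ((g * ⟨proj h i, hP i⟩ : S) : Module.End K V) =
          proj h i * ((f : Module.End K V) * g) := by
        change (f : Module.End K V) * ((g : Module.End K V) * proj h i) = _
        rw [← mul_assoc, ← hfg.proj_comm h i]
      rw [h5, ← mul_assoc, par_mul_proj, smul_mul_assoc, map_smul, smul_eq_mul] at h4
      rcases mul_eq_zero.1 h4 with h6 | h6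
      · exact absurd h6 (pow_ne_zero _ (by norm_num))
      · exact h6

end Abs

open VarClass Obj WeilCohomology

variable {k : Type u} [Field k] {𝒱 : VarClass k} {ops : CycleOps 𝒱}
  {W : WeilCohomology.{u, v} ops} {X : 𝒱.Obj}

/-- The element of the algebra given by a correspondence. -/
noncomputable def cc (W : WeilCohomology.{u, v} ops) (z : Corr0 X) : opS W X :=
  ⟨W.corr (W.cl (X.prod X) z.1), cyc_mem_opS z.2⟩

/-- The element of the algebra given by the transpose of a correspondence. -/
noncomputable def ct (W : WeilCohomology.{u, v} ops) (z : Corr0 X) : opS W X :=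
  ⟨W.corr (W.cl (X.prod X) (ops.pull (swap X X) z.1)), cyc_mem_opS (ops.pull_mem _ z.2)⟩

lemma span_of_all {c : Corr0 X → opS W X}
    (hc : ∀ z, (X.prod X).IsCyc X.dim z → ∃ w : Corr0 X,
      ((c w : opS W X) : Module.End W.K (W.H X)) = W.corr (W.cl (X.prod X) z)) :
    Submodule.span W.K (Set.range c) = ⊤ := by
  rw [eq_top_iff]
  rintro ⟨f, hf⟩ -
  have key : ∀ f, ∀ hf : f ∈ opS W X,
      f ∈ (Submodule.span W.K (Set.range c)).map (opS W X).val.toLinearMap := by
    intro f hf
    refine opS_induction (p := fun f =>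
      f ∈ (Submodule.span W.K (Set.range c)).map (opS W X).val.toLinearMap) ?_ ?_ ?_ ?_ hf
    · intro z hz
      obtain ⟨w, hw⟩ := hc z hz
      exact ⟨c w, Submodule.subset_span ⟨w, rfl⟩, hw⟩
    · exact Submodule.zero_mem _
    · intro f g hf hg; exact Submodule.add_mem _ hf hg
    · intro a f hf; exact Submodule.smul_mem _ _ hf
  obtain ⟨g, hg, hgf⟩ := key f hf
  have : g = ⟨f, hf⟩ := Subtype.ext hgf
  rwa [← this]

lemma span_cc : Submodule.span W.K (Set.range (cc (X := X) W)) = ⊤ :=
  span_of_all (fun z hz => ⟨⟨z, hz⟩, rfl⟩)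

lemma span_ct : Submodule.span W.K (Set.range (ct (X := X) W)) = ⊤ := by
  apply span_of_all
  intro z hz
  refine ⟨⟨ops.pull (swap X X) z, ops.pull_mem _ hz⟩, ?_⟩
  change W.corr (W.cl (X.prod X) (ops.pull (swap X X) (ops.pull (swap X X) z))) = _
  rw [W.cl_pull, W.cl_pull, map_swap_swap]

lemma numRank_eq (W : WeilCohomology.{u, v} ops) (X : 𝒱.Obj) :
    numRank ops X = Module.finrank W.K (LinearMap.range (trForm (opS W X)
      (par (W.isInternal X)))) := by
  rw [numRank, ← pairRank_cast (K := W.K), ← pairRank_eq (cc W) (ct W) span_cc span_ct]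
  congr 1
  funext z w
  rw [trForm_apply]
  exact deg_eq_str (W := W) (p := X.dim) (q := X.dim) (by omega) z.2 w.2

lemma traceRank_eq (W : WeilCohomology.{u, v} ops) (X : 𝒱.Obj) (i : ℕ) :
    traceRank W X i = Module.finrank W.K (LinearMap.range (trForm (opS W X)
      (proj (W.isInternal X) i))) := by
  rw [traceRank, ← pairRank_eq (cc W) (cc W) span_cc span_cc]
  congr 1
  funext z w
  rw [trForm_apply, trPair, trOn, trace_onDeg]
  rfl

/-- **Additivity of the ranks.** -/
theorem numRank_le (W : WeilCohomology.{u, v} ops) (X : 𝒱.Obj) :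
    numRank ops X ≤ ∑ i ∈ range (2 * X.dim + 1), traceRank W X i ∧
    (numRank ops X = ∑ i ∈ range (2 * X.dim + 1), traceRank W X i ↔ KunnethSpan W X) := by
  simp only [numRank_eq W X, traceRank_eq W X]
  rw [kunnethSpan_iff]
  exact rank_add (W.isInternal X) W_hbd (fun s hs => opS_hom hs)

end Pool.Agent.W543.KU
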