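import Pool.Agent.W543.KU.RatDefs

/-!
# Ranks of pairings: definitions
-/

universe u v

namespace Pool.Agent.W543.KU

open Pool.Agent.H914 VarClass Obj WeilCohomology

/-- The rank of the pairing `b`: the dimension of the space spanned by the functions `b z`. -/
noncomputable def pairRank {F Z Z' : Type*} [Field F] (b : Z → Z' → F) : ℕ :=
  Module.finrank F (Submodule.span F (Set.range b))

/-- The pairing whose value at `z`, `w` is the trace on the `i`-th graded piece of the product of
the operators `F z` and `F w`. -/
noncomputable def trPair {K : Type*} [Field K] {V : Type*} [AddCommGroup V] [Module K V]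
    {gr : ℕ → Submodule K V} {Z : Type*} (h : DirectSum.IsInternal gr) (i : ℕ)
    (F : Z → Module.End K V) : Z → Z → K :=
  fun z w => trOn h i (F z * F w)

variable {k : Type u} [Field k] {𝒱 : VarClass k} {ops : CycleOps 𝒱}

/-- The cycles of codimension `dim X` on `X × X` (correspondences of degree zero). -/
abbrev Corr0 (X : 𝒱.Obj) : Type u := {z : (X.prod X).Cycles // (X.prod X).IsCyc X.dim z}

/-- The rank of the intersection pairing on the cycles of codimension `dim X` on `X × X`, that is
the dimension of the space of these cycles modulo numerical equivalence. -/
noncomputable def numRank (ops : CycleOps 𝒱) (X : 𝒱.Obj) : ℕ :=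
  pairRank (fun z w : Corr0 X => (X.prod X).V.degCycle (ops.mul z.1 w.1))

/-- The rank of the trace pairing of `H^i(X)`: the pairing whose value at the correspondences `z`
and `w` is the trace on `H^i(X)` of the product of the operators induced by `z` and `w`. -/
noncomputable def traceRank (W : WeilCohomology.{u, v} ops) (X : 𝒱.Obj) (i : ℕ) : ℕ :=
  pairRank (trPair (W.isInternal X) i (fun z : Corr0 X => W.corr (W.cl (X.prod X) z.1)))

end Pool.Agent.W543.KU
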