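import Pool.Agent.W543.KU.CharDefs
import Pool.Agent.W543.KU.Defs

/-!
# Traces of cycles on the cohomology groups: definitions
-/

universe u v

namespace Pool.Agent.W543.KU

open Pool.Agent.H914 VarClass Obj WeilCohomology

/-- The trace of the operator induced by `f` on the `i`-th graded piece. -/
noncomputable def trOn {K : Type*} [Field K] {V : Type*} [AddCommGroup V] [Module K V]
    {gr : ℕ → Submodule K V} (h : DirectSum.IsInternal gr) (i : ℕ) (f : Module.End K V) : K :=
  LinearMap.trace K (gr i) (onDeg h i f)

variable {k : Type u} [Field k] {𝒱 : VarClass k} {ops : CycleOps 𝒱}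

/-- All cycles of codimension `dim X` on `X × X` have rational traces on all `H^i(X)`. -/
def HasRationalTraces (W : WeilCohomology.{u, v} ops) (X : 𝒱.Obj) : Prop :=
  ∀ z, (X.prod X).IsCyc X.dim z → ∀ i, ∃ q : ℚ,
    trOn (W.isInternal X) i (W.corr (W.cl (X.prod X) z)) = q

end Pool.Agent.W543.KU
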