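import Pool.Agent.W543.KU.Char
import Pool.Agent.W543.KU.ParLin

/-!
# Characteristic polynomials coprime for given pairs of degrees
-/

open Polynomial Finset

namespace Pool.Agent.W543.KU

open Pool.Agent.H914 Pool.Agent.H447

variable {K : Type*} [Field K] {V : Type*} [AddCommGroup V] [Module K V]
  {gr : ℕ → Submodule K V} [Module.Finite K V]

/-- The pairs of degrees in `s` have coprime characteristic polynomials. -/
def GoodP (h : DirectSum.IsInternal gr) (s : Finset (ℕ × ℕ)) (f : Module.End K V) : Prop :=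
  ∀ p ∈ s, IsCoprime (charOn h p.1 f) (charOn h p.2 f)

lemma goodP_pencil [CharZero K] (h : DirectSum.IsInternal gr) {s : Finset (ℕ × ℕ)}
    {f g : Module.End K V} {c : K}
    (hc : GoodP h s (f + c • g)) : ∃ q : ℚ, GoodP h s (f + (q : K) • g) := by
  classical
  choose P hP using fun p : ℕ × ℕ => exists_pencil h p.1 p.2 f g
  have hne : ∏ p ∈ s, P p ≠ 0 := by
    intro h0
    have h1 : (∏ p ∈ s, P p).eval c = 0 := by rw [h0, eval_zero]
    rw [eval_prod, Finset.prod_eq_zero_iff] at h1
    obtain ⟨p, hp, h2⟩ := h1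
    rw [hP] at h2
    exact (coprime_iff h _ _ _).1 (hc p hp) h2
  obtain ⟨q, hq⟩ : ∃ q : ℕ, (∏ p ∈ s, P p).eval (q : K) ≠ 0 := by
    by_contra hcon
    push Not at hcon
    apply hne
    apply Polynomial.eq_zero_of_infinite_isRoot
    refine Set.Infinite.mono (s := Set.range (fun q : ℕ => (q : K))) ?_
      (Set.infinite_range_of_injective Nat.cast_injective)
    rintro _ ⟨q, rfl⟩
    exact hcon q
  refine ⟨q, ?_⟩
  intro p hp
  have e : (((q : ℕ) : ℚ) : K) = (q : K) := Rat.cast_natCast q
  rw [e, coprime_iff]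
  rw [eval_prod, Finset.prod_ne_zero_iff] at hq
  have h1 := hq p hp
  rw [hP] at h1
  exact h1

/-- From the `K`-span to rational combinations. -/
lemma goodP_descent [CharZero K] (h : DirectSum.IsInternal gr) {s : Finset (ℕ × ℕ)}
    {R : Set (Module.End K V)} (hR0 : (0 : Module.End K V) ∈ R)
    (hRadd : ∀ f ∈ R, ∀ g ∈ R, f + g ∈ R) (hRs : ∀ (q : ℚ), ∀ f ∈ R, (q : K) • f ∈ R)
    {a : Module.End K V} (ha : a ∈ Submodule.span K R) (hg : GoodP h s a) :
    ∃ t ∈ R, GoodP h s t := by
  have key : ∀ a ∈ Submodule.span K R, ∀ (f : Module.End K V) (c : K), GoodP h s (f + c • a) →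
      ∃ t ∈ R, GoodP h s (f + t) := by
    intro a ha
    induction ha using Submodule.span_induction with
    | mem x hx =>
      intro f c hc
      obtain ⟨q, hq⟩ := goodP_pencil h hc
      exact ⟨_, hRs q x hx, hq⟩
    | zero =>
      intro f c hc
      rw [smul_zero] at hc
      exact ⟨0, hR0, hc⟩
    | add x y _ _ hx hy =>
      intro f c hc
      rw [smul_add, ← add_assoc] at hc
      obtain ⟨t, ht, h1⟩ := hy _ c hc
      have h2 : f + c • x + t = (f + t) + c • x := by abel
      rw [h2] at h1
      obtain ⟨t', ht', h3⟩ := hx _ c h1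
      exact ⟨t + t', hRadd t ht t' ht', by rw [← add_assoc]; exact h3⟩
    | smul a x _ hx =>
      intro f c hc
      rw [smul_smul] at hc
      exact hx f _ hc
  obtain ⟨t, ht, h1⟩ := key a ha 0 1 (by rw [one_smul, zero_add]; exact hg)
  rw [zero_add] at h1
  exact ⟨t, ht, h1⟩

/-- The characteristic polynomial of a scalar operator. -/
lemma charOn_scalar (h : DirectSum.IsInternal gr) {i : ℕ} {f : Module.End K V} {c : K}
    (hf : ∀ x ∈ gr i, f x = c • x) :
    charOn h i f = (X - C c) ^ Module.finrank K (gr i) := by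
  have h1 : onDeg h i f = c • 1 := by
    ext x
    rw [onDeg_apply, hf x x.2, map_smul, proj_same h x.2]
    rfl
  rw [charOn, h1]
  let b := Module.finBasis K (gr i)
  rw [← LinearMap.charpoly_toMatrix _ b]
  have h2 : LinearMap.toMatrix b b (c • (1 : Module.End K (gr i))) =
      Matrix.diagonal (fun _ => c) := by
    rw [map_smul, LinearMap.toMatrix_one]
    ext r s
    simp [Matrix.diagonal_apply, Matrix.one_apply]
  rw [h2, Matrix.charpoly_diagonal]
  simp

/-- The pairs of an even and an odd degree less than `N`. -/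
noncomputable def eoPairs (N : ℕ) : Finset (ℕ × ℕ) :=
  ((range N).filter Even) ×ˢ ((range N).filter Odd)

lemma goodP_even (h : DirectSum.IsInternal gr) (N : ℕ) :
    GoodP h (eoPairs N) (evenProj h) := by
  rintro ⟨i, j⟩ hp
  rw [eoPairs, Finset.mem_product, Finset.mem_filter, Finset.mem_filter] at hp
  rw [charOn_scalar h (c := 1) (fun x hx => by rw [evenProj_even h hp.1.2 hx, one_smul]),
    charOn_scalar h (c := 0) (fun x hx => by rw [evenProj_odd h hp.2.2 hx, zero_smul])]
  apply IsCoprime.pow
  apply isCoprime_X_sub_C_of_isUnit_sub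
  simp

end Pool.Agent.W543.KU
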