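import Pool.Agent.W543.KU.CharDefs
import Pool.Agent.W543.KU.Defs

/-!
# The sign conjecture with coefficients and parity graded subspaces: definitions
-/

universe u v

namespace Pool.Agent.W543.KU

open Pool.Agent.H914 Pool.Agent.H447 VarClass Obj WeilCohomology

/-- `N` is the direct sum of its intersections with the even part and with the odd part of the
graded space. -/
def IsParitySub {K : Type*} [Field K] {V : Type*} [AddCommGroup V] [Module K V]
    (gr : ℕ → Submodule K V) (N : Submodule K V) : Prop :=
  N = (N ⊓ ⨆ (i : ℕ) (_ : Even i), gr i) ⊔ (N ⊓ ⨆ (i : ℕ) (_ : Odd i), gr i)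

variable {k : Type u} [Field k] {𝒱 : VarClass k} {ops : CycleOps 𝒱}

/-- The sign conjecture for `X` with coefficients in `K`: the class which induces the projector onto
the even cohomology of `X` lies in the `K`-span of the classes of the cycles of codimension `dim X`
on `X × X`. -/
def SignSpan (W : WeilCohomology.{u, v} ops) (X : 𝒱.Obj) : Prop :=
  ∃ τ ∈ spanCycles W (X.prod X) X.dim, IsEvenProj (W.gr X) (W.corr τ)

/-- The operators which the cycle `z` on `X × X` induces on `H^i(X)` and on `H^j(X)` have coprime
characteristic polynomials. -/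
def Separates (W : WeilCohomology.{u, v} ops) (X : 𝒱.Obj) (z : (X.prod X).Cycles) (i j : ℕ) :
    Prop :=
  IsCoprime (charOn (W.isInternal X) i (W.corr (W.cl (X.prod X) z)))
    (charOn (W.isInternal X) j (W.corr (W.cl (X.prod X) z)))

end Pool.Agent.W543.KU
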