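import Pool.Agent.W543.KU.ZetaRat
import Pool.Agent.W543.KU.SignDefs
import Pool.Agent.W543.KU.CharCyc

/-!
# The sign conjecture: stable subspaces and characteristic polynomials
-/

open Polynomial Finset

universe u v

namespace Pool.Agent.W543.KU

open Pool.Agent.H914 Pool.Agent.H447 VarClass Obj WeilCohomology

lemma isParitySub_iff {K : Type*} [Field K] {V : Type*} [AddCommGroup V] [Module K V]
    {gr : ℕ → Submodule K V} (h : DirectSum.IsInternal gr) {N : Submodule K V} :
    IsParitySub gr N ↔ ∀ x ∈ N, evenProj h x ∈ N := by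
  constructor
  · intro hN x hx
    rw [IsParitySub] at hN
    rw [hN] at hx
    obtain ⟨y, hy, z, hz, rfl⟩ := Submodule.mem_sup.1 hx
    rw [map_add, evenProj_grP_zero h hy.2, evenProj_grP_one h hz.2, add_zero]
    exact hy.1
  · intro hN
    apply le_antisymm
    · intro x hx
      have h1 : x = evenProj h x + (x - evenProj h x) := by abel
      rw [h1]
      exact Submodule.add_mem_sup ⟨hN x hx, evenProj_mem h x⟩
        ⟨N.sub_mem hx (hN x hx), sub_evenProj_mem h x⟩
    · exact sup_le inf_le_left inf_le_left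

/-- Rational polynomials in a rational operator. -/
lemma rop_aeval {k : Type u} [Field k] {𝒱 : VarClass k} {ops : CycleOps 𝒱}
    {W : WeilCohomology.{u, v} ops} {X : 𝒱.Obj} {f : Module.End W.K (W.H X)} (hf : ROp W X 0 f)
    (g : ℚ[X]) : ROp W X 0 (aeval f (g.map (algebraMap ℚ W.K))) := by
  have hOA := rop_opAlg (W := W) (X := X)
  induction g using Polynomial.induction_on' with
  | add a b ha hb => rw [Polynomial.map_add, map_add]; exact hOA.add ha hb
  | monomial n c =>
    rw [Polynomial.map_monomial, aeval_monomial, Algebra.algebraMap_eq_smul_one, smul_mul_assoc,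
      one_mul]
    exact hOA.smul c (hOA.cast (hOA.pow hf n) (by simp))

variable {k : Type u} [Field k] {𝒱 : VarClass k} {ops : CycleOps 𝒱}
  {W : WeilCohomology.{u, v} ops} {X Y : 𝒱.Obj}

lemma signStd_iff : SignStd W X ↔ ROp W X 0 (evenProj (W.isInternal X)) := by
  constructor
  · rintro ⟨P, hP, hP'⟩
    rw [← isEvenProj_iff.1 hP']
    exact rop_corr (by simp) hP
  · intro h
    obtain ⟨z, hz, hz'⟩ := exists_of_rop (p := X.dim) (by simp) h
    exact ⟨z, hz, isEvenProj_iff.2 hz'⟩

lemma signSpan_iff : SignSpan W X ↔ evenProj (W.isInternal X) ∈ opS W X := by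
  constructor
  · rintro ⟨τ, hτ, hp⟩
    rw [← isEvenProj_iff.1 hp, mem_opS, mem_KOp_iff]
    exact ⟨τ, by simpa using hτ, rfl⟩
  · intro h
    rw [mem_opS, mem_KOp_iff] at h
    obtain ⟨τ, hτ, hp⟩ := h
    exact ⟨τ, by simpa using hτ, isEvenProj_iff.2 hp⟩

/-- A cycle which separates the even from the odd degrees. -/
lemma signStd_of_coprime {z : (X.prod X).Cycles} (hz : (X.prod X).IsCyc X.dim z)
    (hco : ∀ i j, Even i → Odd j →
      IsCoprime (charOn (W.isInternal X) i (W.corr (W.cl (X.prod X) z)))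
        (charOn (W.isInternal X) j (W.corr (W.cl (X.prod X) z)))) : SignStd W X := by
  have hOA := rop_opAlg (W := W) (X := X)
  have hf : ROp W X 0 (W.corr (W.cl (X.prod X) z)) := rop_corr (d := 0) (by simp) hz
  obtain ⟨g, hg⟩ := exists_rational_poly (W.isInternal X) W_hbd (opS_hom (cyc_mem_opS hz))
    (fun m => rop_str _ (hOA.cast (hOA.pow hf (m + 1)) (by simp))) hco
  rw [signStd_iff, hg]
  exact rop_aeval hf g

lemma charOn_eq_one {i : ℕ} (hi : 2 * X.dim + 1 ≤ i) (f : Module.End W.K (W.H X)) :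
    charOn (W.isInternal X) i f = 1 := by
  apply Polynomial.eq_one_of_monic_natDegree_zero (charOn_monic _ _ _)
  rw [charOn_natDegree, W_hbd i hi]
  exact finrank_bot _ _

/-- **The sign conjecture: rational and linear combinations, stable subspaces, characteristic
polynomials.** -/
theorem sign_tfae (W : WeilCohomology.{u, v} ops) (X : 𝒱.Obj) :
    [SignStd W X,
     SignSpan W X,
     ∀ N, IsStableSub W X N → IsParitySub (W.gr X) N,
     ∀ i j, Even i → Odd j → ∃ z, (X.prod X).IsCyc X.dim z ∧ Separates W X z i j,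
     ∃ z, (X.prod X).IsCyc X.dim z ∧ ∀ i j, Even i → Odd j → Separates W X z i j].TFAE := by
  have h := W.isInternal X
  have hOA := rop_opAlg (W := W) (X := X)
  tfae_have 1 → 2 := by
    intro h1
    rw [signStd_iff] at h1
    rw [signSpan_iff, mem_opS, ← mem_KS_iff]
    exact Submodule.subset_span h1
  tfae_have 2 → 3 := by
    intro h1 N hN
    rw [signSpan_iff] at h1
    rw [isStableSub_iff] at hN
    rw [isParitySub_iff (W.isInternal X)]
    exact hN _ h1
  tfae_have 3 → 2 := by
    intro hG
    rw [signSpan_iff]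
    apply evenProj_mem_of_stable (W.isInternal X) (fun s hs => opS_hom hs)
    intro N hN
    exact (isParitySub_iff (W.isInternal X)).1 (hG N (isStableSub_iff.2 hN))
  tfae_have 5 → 4 := by
    rintro ⟨z, hz, hc⟩ i j hi hj
    exact ⟨z, hz, hc i j hi hj⟩
  tfae_have 4 → 2 := by
    intro hc
    rw [signSpan_iff]
    apply evenProj_mem_of_sep (W.isInternal X) W_hbd (fun s hs => opS_hom hs)
    intro i j hi hj
    obtain ⟨z, hz, hco⟩ := hc i j hi hj
    exact sep_of_coprime (W.isInternal X) (cyc_mem_opS hz) (opS_hom (cyc_mem_opS hz)) hco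
  tfae_have 5 → 1 := by
    rintro ⟨z, hz, hc⟩
    exact signStd_of_coprime hz hc
  tfae_have 2 → 5 := by
    intro hK
    rw [signSpan_iff] at hK
    obtain ⟨t, ht, hg⟩ := goodP_descent (W.isInternal X) (R := cycOps W X)
      (cycOps_rop.2 (hOA.zero 0))
      (fun f hf g hg => cycOps_rop.2 (hOA.add (cycOps_rop.1 hf) (cycOps_rop.1 hg)))
      (fun q f hf => cycOps_rop.2 (hOA.smul q (cycOps_rop.1 hf)))
      (opS_span hK) (goodP_even (W.isInternal X) (2 * X.dim + 1))
    obtain ⟨z, hz, rfl⟩ := ht
    refine ⟨z, hz, fun i j hi hj => ?_⟩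
    unfold Separates
    by_cases hi' : i < 2 * X.dim + 1
    · by_cases hj' : j < 2 * X.dim + 1
      · exact hg (i, j) (by simp [eoPairs, hi, hj, hi', hj'])
      · rw [charOn_eq_one (by omega : 2 * X.dim + 1 ≤ j)]
        exact isCoprime_one_right
    · rw [charOn_eq_one (by omega : 2 * X.dim + 1 ≤ i)]
      exact isCoprime_one_left
  tfae_finish

end Pool.Agent.W543.KU
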