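import Pool.Agent.W543.KU.SignCyc
import Pool.Agent.H578R3.SgnCyc

/-!
# Zeta functions of correspondences and the sign conjecture
-/

open Polynomial Finset

universe u v

namespace Pool.Agent.W543.KU

open Pool.Agent.H914 Pool.Agent.H447 Pool.Agent.H578R3.Sgn VarClass Obj WeilCohomology

section Abs

variable {K : Type*} [Field K]

lemma reverse_X_sub_C (c : K) : (X - C c : K[X]).reverse = 1 - C c * X := by
  unfold reverse
  rw [natDegree_X_sub_C, reflect_sub, reflect_one_X, reflect_C, pow_one]

lemma reverse_pow_X_sub_C (c : K) (n : ℕ) : ((X - C c : K[X]) ^ n).reverse = (1 - C c * X) ^ n := by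
  induction n with
  | zero => rw [pow_zero, pow_zero, show (1 : K[X]) = C 1 by simp, reverse_C]
  | succ n ih => rw [pow_succ, pow_succ, reverse_mul_of_domain, ih, reverse_X_sub_C]

lemma natDegree_pow_one_sub {c : K} (hc : c ≠ 0) (n : ℕ) :
    ((1 - C c * X : K[X]) ^ n).natDegree = n := by
  rw [natDegree_pow]
  have : (1 - C c * X : K[X]).natDegree = 1 := by
    have h1 : (1 - C c * X : K[X]) = C (-c) * X + C 1 := by
      rw [C_neg, C_1]; ring
    rw [h1, natDegree_linear (neg_ne_zero.2 hc)]
  rw [this, mul_one]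

variable [CharZero K] {V : Type*} [AddCommGroup V] [Module K V]
  [Module.Finite K V] {gr : ℕ → Submodule K V}

lemma coprime_of_reverse (h : DirectSum.IsInternal gr) {N : ℕ} {f : Module.End K V}
    (hbd : ∀ i, N ≤ i → gr i = ⊥)
    (hco : IsCoprime (evP h N f).reverse (odP h N f).reverse)
    (h1 : (evP h N f).reverse.natDegree = (evP h N f).natDegree)
    (h2 : (odP h N f).reverse.natDegree = (odP h N f).natDegree) (i j : ℕ) (hi : Even i)
    (hj : Odd j) : IsCoprime (charOn h i f) (charOn h j f) := by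
  have hne : (evP h N f).reverse ≠ 0 := by
    rw [Ne, reverse_eq_zero]; exact (evP_monic h N f).ne_zero
  have h3 := isCoprime_reverse hne hco
  rw [reverse_reverse_of h1, reverse_reverse_of h2] at h3
  have hone : ∀ l, N ≤ l → charOn h l f = 1 := by
    intro l hl
    apply Polynomial.eq_one_of_monic_natDegree_zero (charOn_monic _ _ _)
    rw [charOn_natDegree, hbd l hl]
    exact finrank_bot _ _
  by_cases hi' : i < N
  · by_cases hj' : j < N
    · exact (h3.of_isCoprime_of_dvd_left (Finset.dvd_prod_of_mem _ (by simp [hi, hi'])))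
        |>.of_isCoprime_of_dvd_right (Finset.dvd_prod_of_mem _ (by simp [hj, hj']))
    · rw [hone j (by omega)]; exact isCoprime_one_right
  · rw [hone i (by omega)]; exact isCoprime_one_left

/-- The zeta function of `2 - e`, where `e` is the even projector. -/
lemma ratDegree_two_sub (h : DirectSum.IsInternal gr) {N : ℕ} {Z : PowerSeries ℚ}
    {f : Module.End K V} (hf : f = ((2 : ℚ) : K) • 1 - evenProj h)
    (hZ : Z.map (algebraMap ℚ K) * ((evP h N f).reverse : PowerSeries K) =
      ((odP h N f).reverse : PowerSeries K)) :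
    HasRatDegree Z (∑ i ∈ range N, Module.finrank K (gr i)) := by
  have he : evP h N f = (X - C 1) ^ (evP h N f).natDegree := by
    have h1 : evP h N f = ∏ i ∈ (range N).filter Even, (X - C 1) ^ Module.finrank K (gr i) := by
      apply Finset.prod_congr rfl
      intro i hi
      apply charOn_scalar
      intro x hx
      rw [hf, LinearMap.sub_apply, LinearMap.smul_apply, Module.End.one_apply,
        evenProj_even h (Finset.mem_filter.1 hi).2 hx]
      push_cast
      rw [two_smul, one_smul]
      abel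
    rw [evP_natDegree]
    rw [Finset.prod_pow_eq_pow_sum] at h1
    exact h1
  have ho : odP h N f = (X - C 2) ^ (odP h N f).natDegree := by
    have h1 : odP h N f = ∏ i ∈ (range N).filter Odd, (X - C 2) ^ Module.finrank K (gr i) := by
      apply Finset.prod_congr rfl
      intro i hi
      apply charOn_scalar
      intro x hx
      rw [hf, LinearMap.sub_apply, LinearMap.smul_apply, Module.End.one_apply,
        evenProj_odd h (Finset.mem_filter.1 hi).2 hx]
      push_cast
      rw [sub_zero]
    rw [odP_natDegree]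
    rw [Finset.prod_pow_eq_pow_sum] at h1
    exact h1
  refine ⟨(1 - C 2 * X) ^ (odP h N f).natDegree, (1 - C 1 * X) ^ (evP h N f).natDegree, ?_, ?_, ?_⟩
  · apply IsCoprime.pow
    refine ⟨-1, 2, ?_⟩
    have h2 : (C (2 : ℚ) : ℚ[X]) = 2 := rfl
    rw [h2, C_1]
    ring
  · rw [he, ho, reverse_pow_X_sub_C, reverse_pow_X_sub_C] at hZ
    apply PowerSeries.map_injective (algebraMap ℚ K) (algebraMap ℚ K).injective
    rw [map_mul, map_coe, map_coe]
    simpa [Polynomial.map_pow, Polynomial.map_sub, Polynomial.map_mul] using hZ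
  · rw [natDegree_pow_one_sub (by norm_num), natDegree_pow_one_sub (by norm_num), ← natDegree_add h N f,
      add_comm]

end Abs

variable {k : Type u} [Field k] {𝒱 : VarClass k} {ops : CycleOps 𝒱} {X : 𝒱.Obj}

lemma iterCyc_mem {z : (X.prod X).Cycles} (hz : (X.prod X).IsCyc X.dim z) (n : ℕ) :
    (X.prod X).IsCyc X.dim (iterCyc ops z n) := by
  induction n with
  | zero => exact hz
  | succ n ih => exact compCyc_mem hz ih rfl

lemma corr_iterCyc (W : WeilCohomology.{u, v} ops) {z : (X.prod X).Cycles}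
    (hz : (X.prod X).IsCyc X.dim z) (n : ℕ) :
    W.corr (W.cl _ (iterCyc ops z n)) = W.corr (W.cl _ z) ^ (n + 1) := by
  induction n with
  | zero => rw [zero_add, pow_one]; rfl
  | succ n ih =>
    have h1 : W.corr (W.cl _ (compCyc ops z (iterCyc ops z n))) =
        W.corr (W.cl _ (iterCyc ops z n)) * W.corr (W.cl _ z) :=
      corr_compCyc W (iterCyc_mem hz n)
    rw [ih] at h1
    rw [pow_succ]
    exact h1

/-- The zeta function is a quotient of determinants. -/
lemma zetaSeries_eq (W : WeilCohomology.{u, v} ops) {z : (X.prod X).Cycles}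
    (hz : (X.prod X).IsCyc X.dim z) :
    (zetaSeries ops X z).map (algebraMap ℚ W.K) *
      ((evP (W.isInternal X) (2 * X.dim + 1) (W.corr (W.cl _ z))).reverse : PowerSeries W.K) =
      ((odP (W.isInternal X) (2 * X.dim + 1) (W.corr (W.cl _ z))).reverse : PowerSeries W.K) := by
  obtain ⟨Z, hZ0, hZ, hZe⟩ := exists_zeta (fun m => diagNumber ops X (iterCyc ops z m))
  have h1 : zetaSeries ops X z = Z := hZe.symm
  rw [h1]
  apply zeta_eq (W.isInternal X) W_hbd (opS_hom (cyc_mem_opS hz)) (q := fun m =>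
    diagNumber ops X (iterCyc ops z m)) _ hZ0 hZ
  intro m
  rw [← corr_iterCyc W hz, diagNumber_eq W (iterCyc_mem hz m)]

/-- **Zeta functions of correspondences and the sign conjecture.** -/
theorem zeta_degree (X : 𝒱.Obj) (W₀ : WeilCohomology.{u, v} ops) :
    (∀ z, (X.prod X).IsCyc X.dim z → ∃ d, HasRatDegree (zetaSeries ops X z) d) ∧
    ∃ D, IsGreatest {d | ∃ z, (X.prod X).IsCyc X.dim z ∧ HasRatDegree (zetaSeries ops X z) d} D ∧
      ∀ W : WeilCohomology.{u, v} ops, D ≤ totalBetti W X ∧
        (SignStd W X ↔ D = totalBetti W X) := by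
  have hrat : ∀ z, (X.prod X).IsCyc X.dim z → ∃ d, HasRatDegree (zetaSeries ops X z) d := by
    intro z hz
    refine exists_ratDegree ?_ (zetaSeries_eq W₀ hz)
    rw [coeff_zero_reverse]
    exact evP_monic _ _ _
  have hle : ∀ (W : WeilCohomology.{u, v} ops) (z : (X.prod X).Cycles),
      (X.prod X).IsCyc X.dim z → ∀ d, HasRatDegree (zetaSeries ops X z) d →
      d ≤ totalBetti W X ∧ (d = totalBetti W X → SignStd W X) := by
    intro W z hz d hd
    set f := W.corr (W.cl (X.prod X) z) with hf
    have hz' := zetaSeries_eq W hz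
    rw [← hf] at hz'
    obtain ⟨h1, h2⟩ := ratDegree_le hd
      (by rw [Ne, reverse_eq_zero]; exact (evP_monic _ _ _).ne_zero)
      (by rw [Ne, reverse_eq_zero]; exact (odP_monic _ _ _).ne_zero) hz'
    have h3 := reverse_natDegree_le (evP (W.isInternal X) (2 * X.dim + 1) f)
    have h4 := reverse_natDegree_le (odP (W.isInternal X) (2 * X.dim + 1) f)
    have h5 : (evP (W.isInternal X) (2 * X.dim + 1) f).natDegree +
        (odP (W.isInternal X) (2 * X.dim + 1) f).natDegree = totalBetti W X :=
      natDegree_add (W.isInternal X) (2 * X.dim + 1) f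
    refine ⟨by omega, fun heq => ?_⟩
    apply signStd_of_coprime hz
    exact coprime_of_reverse (W.isInternal X) (f := f) W_hbd (h2 (by omega)) (by omega) (by omega)
  refine ⟨hrat, ?_⟩
  obtain ⟨d₀, hd₀⟩ := hrat 0 (SmVar.IsCyc.zero _ _)
  set S : Set ℕ := {d | ∃ z, (X.prod X).IsCyc X.dim z ∧ HasRatDegree (zetaSeries ops X z) d} with hS
  have hne : S.Nonempty := ⟨d₀, 0, SmVar.IsCyc.zero _ _, hd₀⟩
  have hbdd : BddAbove S := ⟨totalBetti W₀ X, fun d ⟨z, hz, hd⟩ => (hle W₀ z hz d hd).1⟩
  refine ⟨sSup S, ⟨Nat.sSup_mem hne hbdd, fun d hd => le_csSup hbdd hd⟩, fun W => ?_⟩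
  obtain ⟨z, hz, hd⟩ := Nat.sSup_mem hne hbdd
  obtain ⟨h1, h2⟩ := hle W z hz _ hd
  refine ⟨h1, fun hsgn => ?_, h2⟩
  apply le_antisymm h1
  apply le_csSup hbdd
  have hOA := rop_opAlg (W := W) (X := X)
  have h3 : ROp W X 0 (((2 : ℚ) : W.K) • 1 - evenProj (W.isInternal X)) :=
    hOA.sub (hOA.smul 2 hOA.one) (signStd_iff.1 hsgn)
  obtain ⟨w, hw, hw'⟩ := exists_of_rop (p := X.dim) (by simp) h3
  exact ⟨w, hw, ratDegree_two_sub (W.isInternal X) hw' (zetaSeries_eq W hw)⟩

end Pool.Agent.W543.KU
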