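import Pool.Agent.H578R3.SgnDefs

/-!
# Zeta functions of correspondences: definitions
-/

universe u v

namespace Pool.Agent.W543.KU

open Pool.Agent.H914 Pool.Agent.H447 Pool.Agent.H578R3.Sgn VarClass Obj WeilCohomology

/-- The power series `exp(g)`, for `g` without constant term. -/
noncomputable def expOf (g : PowerSeries ℚ) : PowerSeries ℚ := (PowerSeries.exp ℚ).subst g

/-- The power series `Z` is the expansion at zero of a rational function `A / B` in lowest terms
with `deg A + deg B = d`. -/
def HasRatDegree (Z : PowerSeries ℚ) (d : ℕ) : Prop :=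
  ∃ A B : Polynomial ℚ, IsCoprime A B ∧ Z * (B : PowerSeries ℚ) = (A : PowerSeries ℚ) ∧
    A.natDegree + B.natDegree = d

variable {k : Type u} [Field k] {𝒱 : VarClass k}

/-- The composite of `n + 1` copies of the cycle `z` on `X × X`. -/
noncomputable def iterCyc (ops : CycleOps 𝒱) {X : 𝒱.Obj} (z : (X.prod X).Cycles) :
    ℕ → (X.prod X).Cycles
  | 0 => z
  | n + 1 => compCyc ops z (iterCyc ops z n)

/-- The zeta function of the correspondence `z`: the power series `exp(∑_{m ≥ 1} a_m t^m / m)`, where
`a_m` is the intersection number of the diagonal and the composite of `m` copies of `z`. -/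
noncomputable def zetaSeries (ops : CycleOps 𝒱) (X : 𝒱.Obj) (z : (X.prod X).Cycles) :
    PowerSeries ℚ :=
  expOf (PowerSeries.mk fun m => if m = 0 then 0 else diagNumber ops X (iterCyc ops z (m - 1)) / m)

/-- The total Betti number of `X`. -/
noncomputable def totalBetti {ops : CycleOps 𝒱} (W : WeilCohomology.{u, v} ops) (X : 𝒱.Obj) : ℕ :=
  ∑ i ∈ Finset.range (2 * X.dim + 1), Module.finrank W.K (W.gr X i)

end Pool.Agent.W543.KU
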