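import Pool.Agent.W543.KU.SignChar
import Pool.Agent.W543.KU.RatTr
import Pool.Agent.W543.KU.ZetaDefs
import Pool.Agent.W717.G.JacR

/-!
# Determinants, traces and zeta functions
-/

open Polynomial Finset

namespace Pool.Agent.W543.KU

open Pool.Agent.H914 Pool.Agent.H447

section Poly

variable {K : Type*} [Field K]

lemma isCoprime_reverse {A B : K[X]} (hA : A ≠ 0) (h : IsCoprime A B) :
    IsCoprime A.reverse B.reverse := by
  obtain ⟨a, b, hab⟩ := h
  obtain ⟨N, hN⟩ : ∃ N, N = max (a.natDegree + A.natDegree) (b.natDegree + B.natDegree) :=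
    ⟨_, rfl⟩
  have h1 : reflect N (a * A + b * B) = X ^ N := by rw [hab, reflect_one]
  rw [reflect_add] at h1
  have h2 : reflect N (a * A) = reflect (N - A.natDegree) a * A.reverse := by
    have := reflect_mul a A (F := N - A.natDegree) (G := A.natDegree) (by omega) le_rfl
    rwa [Nat.sub_add_cancel (by omega)] at this
  have h3 : reflect N (b * B) = reflect (N - B.natDegree) b * B.reverse := by
    have := reflect_mul b B (F := N - B.natDegree) (G := B.natDegree) (by omega) le_rfl
    rwa [Nat.sub_add_cancel (by omega)] at this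
  have hX : IsCoprime (X ^ N) A.reverse := by
    apply IsCoprime.pow_left
    rw [irreducible_X.coprime_iff_not_dvd, X_dvd_iff, coeff_zero_reverse]
    exact leadingCoeff_ne_zero.2 hA
  obtain ⟨u, v, huv⟩ := hX
  refine ⟨u * reflect (N - A.natDegree) a + v, u * reflect (N - B.natDegree) b, ?_⟩
  rw [← huv, ← h1, h2, h3]
  ring

lemma reverse_reverse_of {A : K[X]} (hA : A.reverse.natDegree = A.natDegree) :
    A.reverse.reverse = A := by
  unfold reverse at hA ⊢
  rw [hA, reflect_reflect]

lemma reverse_prod {ι : Type*} (s : Finset ι) (p : ι → K[X]) :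
    (∏ i ∈ s, p i).reverse = ∏ i ∈ s, (p i).reverse := by
  classical
  induction s using Finset.induction_on with
  | empty =>
    rw [Finset.prod_empty, Finset.prod_empty, show (1 : K[X]) = C 1 by simp, reverse_C]
  | insert a s ha ih => rw [Finset.prod_insert ha, Finset.prod_insert ha, reverse_mul_of_domain, ih]

end Poly

section Series

variable {K : Type*} [Field K]

/-- Power series with the same logarithmic derivative. -/
lemma eq_of_logDeriv [CharZero K] {Y Z T : PowerSeries K}
    (hY : PowerSeries.derivative K Y = Y * T) (hZ : PowerSeries.derivative K Z = Z * T)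
    (hY0 : PowerSeries.constantCoeff Y = 1) (hZ0 : PowerSeries.constantCoeff Z = 1) : Y = Z := by
  have hZne : PowerSeries.constantCoeff Z ≠ 0 := by rw [hZ0]; exact one_ne_zero
  have h1 : Y * Z⁻¹ = 1 := by
    apply PowerSeries.derivative.ext
    · rw [Derivation.leibniz, PowerSeries.derivative_inv', hY, hZ]
      have h2 : Z * Z⁻¹ = 1 := PowerSeries.mul_inv_cancel Z hZne
      simp only [smul_eq_mul, Derivation.map_one_eq_zero]
      linear_combination (-(Y * T * Z⁻¹)) * h2
    · rw [map_mul, PowerSeries.constantCoeff_inv, hY0, hZ0]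
      simp
  calc Y = Y * (Z⁻¹ * Z) := by rw [PowerSeries.inv_mul_cancel Z hZne, mul_one]
    _ = Z := by rw [← mul_assoc, h1, one_mul]

lemma expOf_props {g : PowerSeries ℚ} (hg : PowerSeries.constantCoeff g = 0) :
    PowerSeries.constantCoeff (expOf g) = 1 ∧
      PowerSeries.derivative ℚ (expOf g) = expOf g * PowerSeries.derivative ℚ g := by
  have hs : PowerSeries.HasSubst g := PowerSeries.HasSubst.of_constantCoeff_zero' hg
  constructor
  · have h1 := PowerSeries.constantCoeff_subst hs (PowerSeries.exp ℚ)
    have h2 : PowerSeries.constantCoeff (expOf g) =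
        MvPowerSeries.constantCoeff (PowerSeries.subst g (PowerSeries.exp ℚ)) := rfl
    rw [h2, h1, finsum_eq_single _ 0]
    · rw [pow_zero, map_one, PowerSeries.coeff_exp]
      simp
    · intro d hd
      have h3 : MvPowerSeries.constantCoeff (g ^ d) = (PowerSeries.constantCoeff g) ^ d :=
        map_pow _ _ _
      rw [h3, hg, zero_pow hd, smul_zero]
  · rw [expOf, PowerSeries.derivative_subst hs, PowerSeries.derivative_exp]

end Series

section Newton

variable {K : Type*} [Field K]

lemma derivative_charpolyRev {Ω : Type*} [Fintype Ω] [DecidableEq Ω] (M : Matrix Ω Ω K) :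
    PowerSeries.derivative K (M.charpolyRev : PowerSeries K) =
      (M.charpolyRev : PowerSeries K) *
        (- PowerSeries.mk (fun m => (M ^ (m + 1)).trace)) := by
  obtain ⟨-, h1⟩ := Pool.Agent.W717.G.det_seriesR M
  ext n
  have h2 := h1 (n + 1)
  rw [PowerSeries.coeff_derivative, mul_neg, map_neg, PowerSeries.coeff_mul, Polynomial.coeff_coe]
  have h3 : M.charpolyRev = (1 - (X : K[X]) • M.map C).det := rfl
  rw [h3]
  push_cast at h2
  rw [mul_comm, h2, Finset.Nat.sum_antidiagonal_eq_sum_range_succ_mk]
  congr 1
  apply Finset.sum_congr rfl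
  intro j hj
  rw [Finset.mem_range] at hj
  rw [Polynomial.coeff_coe, PowerSeries.coeff_mk]
  congr 3
  omega

variable {V : Type*} [AddCommGroup V] [Module K V]

lemma derivative_reverse [Module.Finite K V] (g : Module.End K V) :
    PowerSeries.derivative K (g.charpoly.reverse : PowerSeries K) =
      (g.charpoly.reverse : PowerSeries K) *
        (- PowerSeries.mk (fun m => LinearMap.trace K V (g ^ (m + 1)))) := by
  let b := Module.finBasis K V
  have h1 : g.charpoly = (LinearMap.toMatrix b b g).charpoly :=
    (LinearMap.charpoly_toMatrix g b).symm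
  rw [h1, Matrix.reverse_charpoly, derivative_charpolyRev]
  congr 3
  funext m
  rw [LinearMap.trace_eq_matrix_trace K b, LinearMap.toMatrix_pow]

variable {gr : ℕ → Submodule K V} [Module.Finite K V]

/-- The power series of the traces of the powers on the `i`-th piece. -/
noncomputable def trSer (h : DirectSum.IsInternal gr) (i : ℕ) (f : Module.End K V) :
    PowerSeries K := PowerSeries.mk (fun m => LinearMap.trace K V (proj h i * f ^ (m + 1)))

lemma onDeg_pow (h : DirectSum.IsInternal gr) (i : ℕ) {f : Module.End K V} (hf : IsHom gr 0 f)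
    (m : ℕ) : onDeg h i f ^ m = onDeg h i (f ^ m) := by
  ext x
  have h1 := aeval_onDeg h i hf (X ^ m) x
  rw [map_pow, aeval_X, map_pow, aeval_X] at h1
  rw [h1, onDeg_hom h i]
  have := hf.pow m
  simpa using this

lemma derivative_charOn (h : DirectSum.IsInternal gr) (i : ℕ) {f : Module.End K V}
    (hf : IsHom gr 0 f) :
    PowerSeries.derivative K ((charOn h i f).reverse : PowerSeries K) =
      ((charOn h i f).reverse : PowerSeries K) * (- trSer h i f) := by
  rw [charOn, derivative_reverse]
  congr 3
  funext m
  rw [onDeg_pow h i hf, trace_onDeg]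

lemma derivative_prod_charOn (h : DirectSum.IsInternal gr) (s : Finset ℕ) {f : Module.End K V}
    (hf : IsHom gr 0 f) :
    PowerSeries.derivative K ((∏ i ∈ s, charOn h i f).reverse : PowerSeries K) =
      ((∏ i ∈ s, charOn h i f).reverse : PowerSeries K) * (- ∑ i ∈ s, trSer h i f) := by
  classical
  induction s using Finset.induction_on with
  | empty =>
    rw [Finset.prod_empty, Finset.sum_empty, show (1 : K[X]) = C 1 by simp, reverse_C]
    simp
  | insert a s ha ih =>
    rw [Finset.prod_insert ha, Finset.sum_insert ha, reverse_mul_of_domain, Polynomial.coe_mul,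
      Derivation.leibniz, ih, derivative_charOn h a hf]
    simp only [smul_eq_mul]
    ring

lemma constantCoeff_reverse {P : K[X]} (hP : P.Monic) :
    PowerSeries.constantCoeff (P.reverse : PowerSeries K) = 1 := by
  rw [← PowerSeries.coeff_zero_eq_constantCoeff_apply, Polynomial.coeff_coe, coeff_zero_reverse]
  exact hP

end Newton

end Pool.Agent.W543.KU
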