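import Pool.Agent.W543.KU.ZetaLin

/-!
# Rationality of the characteristic polynomials on the even and the odd part
-/

open Polynomial Finset

namespace Pool.Agent.W543.KU

open Pool.Agent.H914 Pool.Agent.H447

section Ret

variable {K : Type*} [Field K] [CharZero K]

/-- The polynomial with the coefficients projected to the rational numbers. -/
noncomputable def retP (ret : K →ₗ[ℚ] ℚ) (P : K[X]) : ℚ[X] :=
  ∑ i ∈ range (P.natDegree + 1), monomial i (ret (P.coeff i))

lemma retP_coeff (ret : K →ₗ[ℚ] ℚ) (P : K[X]) (n : ℕ) :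
    (retP ret P).coeff n = ret (P.coeff n) := by
  rw [retP, finset_sum_coeff]
  simp only [coeff_monomial]
  rw [Finset.sum_ite_eq' (range (P.natDegree + 1)) n (fun i => ret (P.coeff i))]
  split_ifs with h
  · rfl
  · rw [Finset.mem_range, not_lt] at h
    rw [coeff_eq_zero_of_natDegree_lt (by omega), map_zero]

lemma retP_natDegree_le (ret : K →ₗ[ℚ] ℚ) (P : K[X]) : (retP ret P).natDegree ≤ P.natDegree := by
  rw [natDegree_le_iff_coeff_eq_zero]
  intro n hn
  rw [retP_coeff, coeff_eq_zero_of_natDegree_lt hn, map_zero]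

lemma retP_mul (ret : K →ₗ[ℚ] ℚ) {Z : PowerSeries ℚ} {P Q : K[X]}
    (h : Z.map (algebraMap ℚ K) * (P : PowerSeries K) = (Q : PowerSeries K)) :
    Z * (retP ret P : PowerSeries ℚ) = (retP ret Q : PowerSeries ℚ) := by
  ext n
  have h1 := congrArg (PowerSeries.coeff n) h
  rw [PowerSeries.coeff_mul, Polynomial.coeff_coe] at h1
  rw [PowerSeries.coeff_mul, Polynomial.coeff_coe, retP_coeff, ← h1, map_sum]
  apply Finset.sum_congr rfl
  intro p _
  rw [Polynomial.coeff_coe, Polynomial.coeff_coe, retP_coeff, PowerSeries.coeff_map,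
    ← Algebra.smul_def, map_smul, smul_eq_mul]

lemma map_coe (P : ℚ[X]) : PowerSeries.map (algebraMap ℚ K) (P : PowerSeries ℚ) =
    ((P.map (algebraMap ℚ K) : K[X]) : PowerSeries K) := by
  ext n
  rw [PowerSeries.coeff_map, Polynomial.coeff_coe, Polynomial.coeff_coe, Polynomial.coeff_map]

/-- A rational function over `K` with rational power series is rational over `ℚ`. -/
lemma exists_ratDegree {Z : PowerSeries ℚ} {P Q : K[X]} (hP0 : P.coeff 0 = 1)
    (h : Z.map (algebraMap ℚ K) * (P : PowerSeries K) = (Q : PowerSeries K)) :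
    ∃ d, HasRatDegree Z d := by
  obtain ⟨ret, hret⟩ := exists_retract K
  have h1 := retP_mul ret h
  have hB0 : retP ret P ≠ 0 := by
    intro h0
    have h2 := retP_coeff ret P 0
    rw [hP0, hret, h0, coeff_zero] at h2
    exact zero_ne_one h2
  classical
  set g := GCDMonoid.gcd (retP ret Q) (retP ret P) with hg
  have hg0 : g ≠ 0 := gcd_ne_zero_of_right hB0
  have hA' : g * (retP ret Q / g) = retP ret Q :=
    EuclideanDomain.mul_div_cancel' hg0 (gcd_dvd_left _ _)
  have hB' : g * (retP ret P / g) = retP ret P :=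
    EuclideanDomain.mul_div_cancel' hg0 (gcd_dvd_right _ _)
  refine ⟨_, retP ret Q / g, retP ret P / g, isCoprime_div_gcd_div_gcd hB0, ?_, rfl⟩
  have hgc : (g : PowerSeries ℚ) ≠ 0 := by
    rw [Ne, Polynomial.coe_eq_zero_iff]; exact hg0
  apply mul_left_cancel₀ hgc
  rw [← hA', ← hB', Polynomial.coe_mul, Polynomial.coe_mul] at h1
  rw [← h1]
  ring

/-- The numerator and the denominator in lowest terms divide every other pair. -/
lemma ratDegree_dvd {Z : PowerSeries ℚ} {A B : ℚ[X]} (hco : IsCoprime A B)
    (hZ : Z * (B : PowerSeries ℚ) = (A : PowerSeries ℚ)) {P Q : K[X]}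
    (h : Z.map (algebraMap ℚ K) * (P : PowerSeries K) = (Q : PowerSeries K)) :
    A.map (algebraMap ℚ K) ∣ Q ∧ B.map (algebraMap ℚ K) ∣ P := by
  have h1 := congrArg (PowerSeries.map (algebraMap ℚ K)) hZ
  rw [map_mul, map_coe, map_coe] at h1
  have h2 : Q * B.map (algebraMap ℚ K) = A.map (algebraMap ℚ K) * P := by
    have h3 : ((Q * B.map (algebraMap ℚ K) : K[X]) : PowerSeries K) =
        ((A.map (algebraMap ℚ K) * P : K[X]) : PowerSeries K) := by
      rw [Polynomial.coe_mul, Polynomial.coe_mul, ← h, ← h1]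
      ring
    exact Polynomial.coe_injective K h3
  have hco' : IsCoprime (A.map (algebraMap ℚ K)) (B.map (algebraMap ℚ K)) :=
    (Polynomial.isCoprime_map (algebraMap ℚ K)).2 hco
  constructor
  · exact hco'.dvd_of_dvd_mul_right (Dvd.intro _ h2.symm)
  · exact hco'.symm.dvd_of_dvd_mul_left (Dvd.intro_left _ h2)

/-- The degree in lowest terms is at most the sum of the degrees; in case of equality the
polynomials are coprime. -/
lemma ratDegree_le {Z : PowerSeries ℚ} {d : ℕ} (hZ : HasRatDegree Z d) {P Q : K[X]}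
    (hP0 : P ≠ 0) (hQ0 : Q ≠ 0)
    (h : Z.map (algebraMap ℚ K) * (P : PowerSeries K) = (Q : PowerSeries K)) :
    d ≤ P.natDegree + Q.natDegree ∧ (d = P.natDegree + Q.natDegree → IsCoprime P Q) := by
  obtain ⟨A, B, hco, hZ, rfl⟩ := hZ
  obtain ⟨hA, hB⟩ := ratDegree_dvd (K := K) hco hZ h
  have h1 := Polynomial.natDegree_le_of_dvd hA hQ0
  have h2 := Polynomial.natDegree_le_of_dvd hB hP0
  rw [Polynomial.natDegree_map] at h1 h2
  refine ⟨by omega, fun heq => ?_⟩
  have hco' : IsCoprime (A.map (algebraMap ℚ K)) (B.map (algebraMap ℚ K)) :=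
    (Polynomial.isCoprime_map (algebraMap ℚ K)).2 hco
  have e1 : Associated (A.map (algebraMap ℚ K)) Q :=
    associated_of_dvd_of_natDegree_le hA hQ0 (by rw [natDegree_map]; omega)
  have e2 : Associated (B.map (algebraMap ℚ K)) P :=
    associated_of_dvd_of_natDegree_le hB hP0 (by rw [natDegree_map]; omega)
  exact (IsCoprime.symm hco').of_isCoprime_of_dvd_left e2.symm.dvd |>.of_isCoprime_of_dvd_right
    e1.symm.dvd

end Ret

section Main

variable {K : Type*} [Field K] [CharZero K] {V : Type*} [AddCommGroup V] [Module K V]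
  [Module.Finite K V] {gr : ℕ → Submodule K V}

/-- The product of the characteristic polynomials on the even pieces. -/
noncomputable def evP (h : DirectSum.IsInternal gr) (N : ℕ) (f : Module.End K V) : K[X] :=
  ∏ i ∈ (range N).filter Even, charOn h i f

/-- The product of the characteristic polynomials on the odd pieces. -/
noncomputable def odP (h : DirectSum.IsInternal gr) (N : ℕ) (f : Module.End K V) : K[X] :=
  ∏ i ∈ (range N).filter Odd, charOn h i f

lemma evP_monic (h : DirectSum.IsInternal gr) (N : ℕ) (f : Module.End K V) :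
    (evP h N f).Monic := monic_prod_of_monic _ _ (fun i _ => charOn_monic h i f)

lemma odP_monic (h : DirectSum.IsInternal gr) (N : ℕ) (f : Module.End K V) :
    (odP h N f).Monic := monic_prod_of_monic _ _ (fun i _ => charOn_monic h i f)

lemma evP_natDegree (h : DirectSum.IsInternal gr) (N : ℕ) (f : Module.End K V) :
    (evP h N f).natDegree = ∑ i ∈ (range N).filter Even, Module.finrank K (gr i) := by
  rw [evP, natDegree_prod_of_monic _ _ (fun i _ => charOn_monic h i f)]
  exact Finset.sum_congr rfl (fun i _ => charOn_natDegree h i f)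

lemma odP_natDegree (h : DirectSum.IsInternal gr) (N : ℕ) (f : Module.End K V) :
    (odP h N f).natDegree = ∑ i ∈ (range N).filter Odd, Module.finrank K (gr i) := by
  rw [odP, natDegree_prod_of_monic _ _ (fun i _ => charOn_monic h i f)]
  exact Finset.sum_congr rfl (fun i _ => charOn_natDegree h i f)

lemma natDegree_add (h : DirectSum.IsInternal gr) (N : ℕ) (f : Module.End K V) :
    (evP h N f).natDegree + (odP h N f).natDegree = ∑ i ∈ range N, Module.finrank K (gr i) := by
  rw [evP_natDegree, odP_natDegree, ← Finset.sum_filter_add_sum_filter_not (range N) Even]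
  congr 1
  apply Finset.sum_congr _ (fun _ _ => rfl)
  ext i
  simp [Nat.not_even_iff_odd]

/-- **The zeta function as a quotient of determinants.** -/
lemma zeta_eq (h : DirectSum.IsInternal gr) {N : ℕ} (hbd : ∀ i, N ≤ i → gr i = ⊥)
    {f : Module.End K V} (hf : IsHom gr 0 f) {q : ℕ → ℚ}
    (hq : ∀ m, LinearMap.trace K V (par h * f ^ (m + 1)) = q m) {Z : PowerSeries ℚ}
    (hZ0 : PowerSeries.constantCoeff Z = 1)
    (hZ : PowerSeries.derivative ℚ Z = Z * PowerSeries.mk q) :
    Z.map (algebraMap ℚ K) * ((evP h N f).reverse : PowerSeries K) =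
      ((odP h N f).reverse : PowerSeries K) := by
  have hS : PowerSeries.map (algebraMap ℚ K) (PowerSeries.mk q) =
      ∑ i ∈ (range N).filter Even, trSer h i f - ∑ i ∈ (range N).filter Odd, trSer h i f := by
    ext m
    rw [PowerSeries.coeff_map, PowerSeries.coeff_mk, map_sub, map_sum, map_sum]
    simp only [trSer, PowerSeries.coeff_mk]
    have h1 := hq m
    have h2 : par h * f ^ (m + 1) = ∑ i ∈ range N, (-1 : K) ^ i • (proj h i * f ^ (m + 1)) := by
      rw [par, scal_eq_sum h hbd, Finset.sum_mul]
      apply Finset.sum_congr rfl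
      intro i _
      rw [smul_mul_assoc]
    rw [h2, map_sum] at h1
    have h3 : algebraMap ℚ K (q m) = (q m : K) := rfl
    rw [h3, ← h1, ← Finset.sum_filter_add_sum_filter_not (range N) Even, sub_eq_add_neg,
      ← Finset.sum_neg_distrib]
    congr 1
    · apply Finset.sum_congr rfl
      intro i hi
      rw [map_smul, (Finset.mem_filter.1 hi).2.neg_one_pow, one_smul]
    · have e : (range N).filter (fun i => ¬ Even i) = (range N).filter Odd := by
        ext i
        simp [Nat.not_even_iff_odd]
      rw [e]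
      apply Finset.sum_congr rfl
      intro i hi
      rw [map_smul, (Finset.mem_filter.1 hi).2.neg_one_pow, neg_one_smul]
  have hZK : PowerSeries.derivative K (Z.map (algebraMap ℚ K)) = Z.map (algebraMap ℚ K) *
      PowerSeries.map (algebraMap ℚ K) (PowerSeries.mk q) := by
    rw [← map_mul, ← hZ]
    ext m
    rw [PowerSeries.coeff_derivative, PowerSeries.coeff_map, PowerSeries.coeff_map,
      PowerSeries.coeff_derivative, map_mul, map_add, map_one, map_natCast]
  apply eq_of_logDeriv (T := - ∑ i ∈ (range N).filter Odd, trSer h i f)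
  · rw [Derivation.leibniz, hZK, hS, evP, derivative_prod_charOn h _ hf]
    simp only [smul_eq_mul]
    ring
  · rw [odP, derivative_prod_charOn h _ hf]
  · rw [map_mul, constantCoeff_reverse (evP_monic h N f), mul_one,
      ← PowerSeries.coeff_zero_eq_constantCoeff_apply, PowerSeries.coeff_map,
      PowerSeries.coeff_zero_eq_constantCoeff_apply, hZ0, map_one]
  · exact constantCoeff_reverse (odP_monic h N f)

lemma exists_zeta (q : ℕ → ℚ) : ∃ Z : PowerSeries ℚ, PowerSeries.constantCoeff Z = 1 ∧
    PowerSeries.derivative ℚ Z = Z * PowerSeries.mk q ∧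
    Z = expOf (PowerSeries.mk fun m => if m = 0 then 0 else q (m - 1) / m) := by
  obtain ⟨h1, h2⟩ := expOf_props
    (g := PowerSeries.mk fun m => if m = 0 then 0 else q (m - 1) / m)
    (by rw [← PowerSeries.coeff_zero_eq_constantCoeff_apply, PowerSeries.coeff_mk, if_pos rfl])
  refine ⟨_, h1, ?_, rfl⟩
  rw [h2]
  congr 1
  ext m
  rw [PowerSeries.coeff_derivative, PowerSeries.coeff_mk, PowerSeries.coeff_mk,
    if_neg (Nat.succ_ne_zero m), Nat.add_sub_cancel]
  push_cast
  have : (m : ℚ) + 1 ≠ 0 := by positivity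
  field_simp

/-- A polynomial over `K` with constant term one, equal to a rational one up to a factor. -/
lemma eq_of_dvd_ret {ret : K →ₗ[ℚ] ℚ} (hret : ret 1 = 1) {P : K[X]} (hP : P.coeff 0 = 1)
    (hd : P ∣ (retP ret P).map (algebraMap ℚ K)) : (retP ret P).map (algebraMap ℚ K) = P := by
  obtain ⟨c, hc⟩ := hd
  have hne : (retP ret P).map (algebraMap ℚ K) ≠ 0 := by
    intro h0
    have h1 := congrArg (fun p => p.coeff 0) h0
    simp only [coeff_map, retP_coeff, hP, hret, coeff_zero, map_one] at h1
    exact one_ne_zero h1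
  have hP0 : P ≠ 0 := fun h0 => by rw [h0] at hP; simp at hP
  have hc0 : c ≠ 0 := fun h0 => hne (by rw [hc, h0, mul_zero])
  have h1 : c.natDegree = 0 := by
    have h2 := congrArg natDegree hc
    rw [natDegree_mul hP0 hc0, natDegree_map] at h2
    have := retP_natDegree_le ret P
    omega
  obtain ⟨a, rfl⟩ := natDegree_eq_zero.1 h1
  have h3 := congrArg (fun p => p.coeff 0) hc
  simp only [coeff_map, retP_coeff, hP, hret, mul_coeff_zero, coeff_C_zero, one_mul,
    map_one] at h3
  rw [hc, ← h3, C_1, mul_one]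

/-- **Coprime characteristic polynomials are rational.** -/
lemma rational_parts (h : DirectSum.IsInternal gr) {N : ℕ} (hbd : ∀ i, N ≤ i → gr i = ⊥)
    {f : Module.End K V} (hf : IsHom gr 0 f)
    (hs : ∀ m, ∃ q : ℚ, LinearMap.trace K V (par h * f ^ (m + 1)) = q)
    (hco : IsCoprime (evP h N f) (odP h N f)) :
    ∃ A B : ℚ[X], evP h N f = A.map (algebraMap ℚ K) ∧ odP h N f = B.map (algebraMap ℚ K) := by
  choose q hq using hs
  obtain ⟨Z, hZ0, hZ, -⟩ := exists_zeta q
  have h1 := zeta_eq h hbd hf hq hZ0 hZ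
  obtain ⟨ret, hret⟩ := exists_retract K
  have h2 := congrArg (PowerSeries.map (algebraMap ℚ K)) (retP_mul ret h1)
  rw [map_mul, map_coe, map_coe] at h2
  have h3 : (odP h N f).reverse * (retP ret (evP h N f).reverse).map (algebraMap ℚ K) =
      (evP h N f).reverse * (retP ret (odP h N f).reverse).map (algebraMap ℚ K) := by
    apply Polynomial.coe_injective K
    rw [Polynomial.coe_mul, Polynomial.coe_mul, ← h1, ← h2]
    ring
  have hco' := isCoprime_reverse (evP_monic h N f).ne_zero hco
  have c1 : (evP h N f).reverse.coeff 0 = 1 := by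
    rw [coeff_zero_reverse]; exact evP_monic h N f
  have c2 : (odP h N f).reverse.coeff 0 = 1 := by
    rw [coeff_zero_reverse]; exact odP_monic h N f
  have e1 := eq_of_dvd_ret hret c1 (hco'.dvd_of_dvd_mul_left (Dvd.intro _ h3.symm))
  have e2 := eq_of_dvd_ret hret c2 (hco'.symm.dvd_of_dvd_mul_left (Dvd.intro _ h3))
  refine ⟨reflect (evP h N f).natDegree (retP ret (evP h N f).reverse),
    reflect (odP h N f).natDegree (retP ret (odP h N f).reverse), ?_, ?_⟩
  · rw [← reflect_map, e1]
    unfold reverse
    rw [reflect_reflect]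
  · rw [← reflect_map, e2]
    unfold reverse
    rw [reflect_reflect]

lemma aeval_charOn_self (h : DirectSum.IsInternal gr) {i : ℕ} {f : Module.End K V}
    (hf : IsHom gr 0 f) {x : V} (hx : x ∈ gr i) : aeval f (charOn h i f) x = 0 := by
  have h3 := aeval_onDeg h i hf (charOn h i f) ⟨x, hx⟩
  have h4 : aeval (onDeg h i f) (charOn h i f) = 0 := LinearMap.aeval_self_charpoly _
  rw [h4] at h3
  rw [← h3]
  simp

lemma aeval_eq_zero_of_dvd (h : DirectSum.IsInternal gr) {i : ℕ} {f : Module.End K V}
    (hf : IsHom gr 0 f) {P : K[X]} (hP : charOn h i f ∣ P) {x : V} (hx : x ∈ gr i) :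
    aeval f P x = 0 := by
  obtain ⟨c, rfl⟩ := hP
  rw [mul_comm, map_mul, Module.End.mul_apply, aeval_charOn_self h hf hx, map_zero]

/-- **The even projector is a rational polynomial in an operator with rational super traces which
separates the even from the odd part.** -/
theorem exists_rational_poly (h : DirectSum.IsInternal gr) {N : ℕ} (hbd : ∀ i, N ≤ i → gr i = ⊥)
    {f : Module.End K V} (hf : IsHom gr 0 f)
    (hs : ∀ m, ∃ q : ℚ, LinearMap.trace K V (par h * f ^ (m + 1)) = q)
    (hco : ∀ i j, Even i → Odd j → IsCoprime (charOn h i f) (charOn h j f)) :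
    ∃ g : ℚ[X], evenProj h = aeval f (g.map (algebraMap ℚ K)) := by
  have hco' : IsCoprime (evP h N f) (odP h N f) := by
    apply IsCoprime.prod_left
    intro i hi
    apply IsCoprime.prod_right
    intro j hj
    exact hco i j (Finset.mem_filter.1 hi).2 (Finset.mem_filter.1 hj).2
  obtain ⟨A, B, hA, hB⟩ := rational_parts h hbd hf hs hco'
  rw [hA, hB, Polynomial.isCoprime_map] at hco'
  obtain ⟨a, b, hab⟩ := hco'
  refine ⟨b * B, ?_⟩
  apply gr_ext h
  intro i x hx
  by_cases hi : i < N
  · rcases Nat.even_or_odd i with hev | hod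
    · rw [evenProj_even h hev hx]
      have h1 : aeval f ((a * A).map (algebraMap ℚ K)) x = 0 := by
        apply aeval_eq_zero_of_dvd h hf _ hx
        rw [Polynomial.map_mul, ← hA]
        exact Dvd.dvd.mul_left (Finset.dvd_prod_of_mem _ (by simp [hi, hev])) _
      have h2 : aeval f ((a * A + b * B).map (algebraMap ℚ K)) x = x := by
        rw [hab, Polynomial.map_one, map_one, Module.End.one_apply]
      rw [Polynomial.map_add, map_add, LinearMap.add_apply, h1, zero_add] at h2
      exact h2.symm
    · rw [evenProj_odd h hod hx]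
      symm
      apply aeval_eq_zero_of_dvd h hf _ hx
      rw [Polynomial.map_mul, ← hB]
      exact Dvd.dvd.mul_left (Finset.dvd_prod_of_mem _ (by simp [hi, hod])) _
  · rw [hbd i (by omega)] at hx
    rw [(Submodule.mem_bot _).1 hx, map_zero, map_zero]

end Main

end Pool.Agent.W543.KU
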